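import Mathlib
import Pool.Agent.H.MP_59b15d_al.h93e.Lk
import Pool.Agent.H.MP_59b15d_al.h95e.Fa

set_option autoImplicit false

/-!
# Front arcs and the group of the twists disjoint from all `A`'s
-/

namespace Pool.MP_59b15d_al.H60E

open Module Pool.MP_59b15d_al.H95E Pool.MP_59b15d_al.H93E

variable {Γ : Type*} [Group Γ]

/-- The half turn of a handle. -/
def io (A B : ℕ → Γ) (k : ℕ) : Γ := (A k * B k) ^ 3

/-- The rotation moving the handle `i + d` to the place `i`. -/
def rt (S : ℕ → Γ) (i : ℕ) : ℕ → Γ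
  | 0 => 1
  | d + 1 => rt S i d * S (i + d)

/-- Further relations. -/
structure Hb (g : ℕ) (A B C S : ℕ → Γ) : Prop where
  SS : ∀ i j, i + 1 < j → Commute (S i) (S j)
  br : ∀ i, i + 2 < g → S i * S (i + 1) * S i = S (i + 1) * S i * S (i + 1)
  R7 : ∀ i, i + 1 < g → S i * C i * (S i)⁻¹ =
    (io A B i * io A B (i + 1))⁻¹ * C i * (io A B i * io A B (i + 1))
  R6 : ∀ i, i + 1 < g → S i * S i =
    ((io A B i)⁻¹ * (io A B (i + 1))⁻¹ * C i * io A B (i + 1) * io A B i) *
    ((io A B i)⁻¹ * C i * io A B i) * ((io A B (i + 1))⁻¹ * C i * io A B (i + 1)) * C i *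
    (A i)⁻¹ ^ 4 * (A (i + 1))⁻¹ ^ 4

section

variable {g : ℕ} {A B C S : ℕ → Γ}

theorem io_comm_A (L : Lk g A B C S) (k j : ℕ) (h : k ≠ j) : Commute (io A B k) (A j) :=
  ((L.AA k j).mul_left (L.AB j k (Ne.symm h)).symm).pow_left 3

theorem io_comm_A' (L : Lk g A B C S) (k : ℕ) : Commute (io A B k) (A k) := by
  have h1 := L.brA k
  have h2 : (A k * B k) ^ 3 = A k * B k * A k * (A k * B k * A k) := by
    calc (A k * B k) ^ 3 = A k * B k * A k * (B k * A k * B k) := by
          simp only [pow_succ, pow_zero]; group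
      _ = _ := by rw [h1]
  have h3 : A k * B k * A k * A k = B k * (A k * B k * A k) := by
    rw [h1]
    calc B k * A k * B k * A k = B k * (A k * B k * A k) := by group
      _ = _ := by rw [h1]
  have h4 : A k * B k * A k * B k = A k * (A k * B k * A k) := by
    rw [← mul_assoc, ← mul_assoc]
    calc A k * B k * A k * B k = A k * (B k * A k * B k) := by group
      _ = _ := by rw [← h1]; group
  change io A B k * A k = A k * io A B k
  rw [io, h2]
  calc A k * B k * A k * (A k * B k * A k) * A k =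
      A k * B k * A k * (A k * B k * A k * A k) := by group
    _ = A k * B k * A k * B k * (A k * B k * A k) := by rw [h3]; group
    _ = _ := by rw [h4]; group

theorem io_comm_B' (L : Lk g A B C S) (k : ℕ) : Commute (io A B k) (B k) := by
  have h1 := L.brA k
  have h2 : (A k * B k) ^ 3 = A k * B k * A k * (A k * B k * A k) := by
    calc (A k * B k) ^ 3 = A k * B k * A k * (B k * A k * B k) := by
          simp only [pow_succ, pow_zero]; group
      _ = _ := by rw [h1]
  have h3 : A k * B k * A k * A k = B k * (A k * B k * A k) := by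
    rw [h1]
    calc B k * A k * B k * A k = B k * (A k * B k * A k) := by group
      _ = _ := by rw [h1]
  have h4 : A k * B k * A k * B k = A k * (A k * B k * A k) := by
    calc A k * B k * A k * B k = A k * (B k * A k * B k) := by group
      _ = _ := by rw [← h1]
  change io A B k * B k = B k * io A B k
  rw [io, h2]
  calc A k * B k * A k * (A k * B k * A k) * B k =
      A k * B k * A k * (A k * B k * A k * B k) := by group
    _ = A k * B k * A k * A k * (A k * B k * A k) := by rw [h4]; group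
    _ = _ := by rw [h3]; group

theorem io_comm_B (L : Lk g A B C S) (k j : ℕ) (h : k ≠ j) : Commute (io A B k) (B j) :=
  ((L.AB k j h).mul_left (L.BB k j)).pow_left 3

/-- Any `x` commuting with `A k`, `B k` commutes with the half turn. -/
theorem comm_io {x : Γ} {k : ℕ} (h1 : Commute x (A k)) (h2 : Commute x (B k)) :
    Commute x (io A B k) := (h1.mul_right h2).pow_right 3

theorem S_io (L : Lk g A B C S) {i : ℕ} (hi : i + 1 < g) :
    S i * io A B i = io A B (i + 1) * S i := by
  have h1 : S i * (A i * B i) * (S i)⁻¹ = A (i + 1) * B (i + 1) := by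
    rw [← mul_assoc, L.SA i hi, mul_assoc (A (i + 1)), L.SB i hi]
    group
  rw [io, io, ← h1, conj_pow]
  group

theorem S_io' (L : Lk g A B C S) {i : ℕ} (hi : i + 1 < g) :
    S i * io A B (i + 1) = io A B i * S i := by
  have h1 : S i * (A (i + 1) * B (i + 1)) * (S i)⁻¹ = A i * B i := by
    rw [← mul_assoc, L.SA' i hi, mul_assoc (A i), L.SB' i hi]
    group
  rw [io, io, ← h1, conj_pow]
  group

theorem S_io_o (L : Lk g A B C S) {i j : ℕ} (h1 : j ≠ i) (h2 : j ≠ i + 1) :
    Commute (S i) (io A B j) := comm_io (L.SAo i j h1 h2) (L.SBo i j h1 h2)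

/-! ### Front arcs -/

/-- The `A`'s commute with the front arcs. -/
theorem A_fr (L : Lk g A B C S) (l : ℕ) : ∀ d, l + d + 1 < g → ∀ j, Commute (A j) (fa C S l d)
  | 0, _, j => L.AC j l
  | d + 1, hd, j => by
    have ih := A_fr L l d (by omega)
    -- `S A_j S⁻¹` is some `A_j'`
    obtain ⟨j', hj'⟩ : ∃ j', S (l + d + 1) * A j = A j' * S (l + d + 1) := by
      by_cases h1 : j = l + d + 1
      · refine ⟨l + d + 1 + 1, ?_⟩
        rw [h1]
        exact L.SA _ (by omega)
      · by_cases h2 : j = l + d + 1 + 1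
        · refine ⟨l + d + 1, ?_⟩
          rw [h2]
          exact L.SA' _ (by omega)
        · exact ⟨j, (L.SAo _ _ h1 h2).eq⟩
    change A j * ((S (l + d + 1))⁻¹ * fa C S l d * S (l + d + 1)) =
      (S (l + d + 1))⁻¹ * fa C S l d * S (l + d + 1) * A j
    have h3 : A j * (S (l + d + 1))⁻¹ = (S (l + d + 1))⁻¹ * A j' := by
      rw [eq_inv_mul_iff_mul_eq, ← mul_assoc, hj']
      group
    calc A j * ((S (l + d + 1))⁻¹ * fa C S l d * S (l + d + 1)) =
        A j * (S (l + d + 1))⁻¹ * fa C S l d * S (l + d + 1) := by group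
      _ = (S (l + d + 1))⁻¹ * (A j' * fa C S l d) * S (l + d + 1) := by rw [h3]; group
      _ = (S (l + d + 1))⁻¹ * fa C S l d * (A j' * S (l + d + 1)) := by
        rw [(ih j').eq]; group
      _ = _ := by rw [← hj']; group

/-- `B j` commutes with the front arcs which do not end at `j`. -/
theorem B_fr (L : Lk g A B C S) (l : ℕ) : ∀ d, l + d + 1 < g → ∀ j, j ≠ l → j ≠ l + d + 1 →
    Commute (B j) (fa C S l d)
  | 0, _, j, h1, h2 => L.BC j l h1 h2
  | d + 1, hd, j, h1, h2 => by
    have ih := B_fr L l d (by omega)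
    obtain ⟨j', hj', h3, h4⟩ : ∃ j', S (l + d + 1) * B j = B j' * S (l + d + 1) ∧ j' ≠ l ∧
        j' ≠ l + d + 1 := by
      by_cases h3 : j = l + d + 1
      · refine ⟨l + d + 1 + 1, ?_, by omega, by omega⟩
        rw [h3]
        exact L.SB _ (by omega)
      · exact ⟨j, (L.SBo _ _ h3 (by omega)).eq, h1, h3⟩
    change B j * ((S (l + d + 1))⁻¹ * fa C S l d * S (l + d + 1)) =
      (S (l + d + 1))⁻¹ * fa C S l d * S (l + d + 1) * B j
    have h5 : B j * (S (l + d + 1))⁻¹ = (S (l + d + 1))⁻¹ * B j' := by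
      rw [eq_inv_mul_iff_mul_eq, ← mul_assoc, hj']
      group
    calc B j * ((S (l + d + 1))⁻¹ * fa C S l d * S (l + d + 1)) =
        B j * (S (l + d + 1))⁻¹ * fa C S l d * S (l + d + 1) := by group
      _ = (S (l + d + 1))⁻¹ * (B j' * fa C S l d) * S (l + d + 1) := by rw [h5]; group
      _ = (S (l + d + 1))⁻¹ * fa C S l d * (B j' * S (l + d + 1)) := by
        rw [(ih j' h3 h4).eq]; group
      _ = _ := by rw [← hj']; group

/-- Exchanges to the right of the arc. -/
theorem S_fr_right (L : Lk g A B C S) (H : Hb g A B C S) (l i : ℕ) :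
    ∀ d, l + d + 1 < i → Commute (S i) (fa C S l d)
  | 0, h => L.SCo i l (by omega) (by omega) (by omega)
  | d + 1, h => by
    have ih := S_fr_right L H l i d (by omega)
    have h1 : Commute (S i) (S (l + d + 1)) := (H.SS _ _ (by omega)).symm
    exact (h1.inv_right.mul_right ih).mul_right h1

/-- Exchanges to the left of the arc. -/
theorem S_fr_left (L : Lk g A B C S) (H : Hb g A B C S) (l i : ℕ) (hi : i + 1 < l) :
    ∀ d, Commute (S i) (fa C S l d)
  | 0 => L.SCo i l (by omega) (by omega) (by omega)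
  | d + 1 => by
    have ih := S_fr_left L H l i hi d
    have h1 : Commute (S i) (S (l + d + 1)) := H.SS _ _ (by omega)
    exact (h1.inv_right.mul_right ih).mul_right h1

/-- Exchanges below the arc. -/
theorem S_fr_mid (L : Lk g A B C S) (H : Hb g A B C S) (l i : ℕ) (hi : l < i) :
    ∀ d, i + 1 < l + d + 1 → l + d + 1 < g → Commute (S i) (fa C S l d)
  | 0, h, _ => by omega
  | d + 1, h, hg => by
    by_cases h1 : i + 1 < l + d + 1
    · have ih := S_fr_mid L H l i hi d h1 (by omega)
      have h2 : Commute (S i) (S (l + d + 1)) := H.SS _ _ (by omega)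
      exact (h2.inv_right.mul_right ih).mul_right h2
    · obtain ⟨d', rfl⟩ : ∃ d', d = d' + 1 := ⟨d - 1, by omega⟩
      obtain rfl : i = l + d' + 1 := by omega
      have e1 : l + (d' + 1) + 1 = l + d' + 1 + 1 := by omega
      have hb := H.br (l + d' + 1) (by omega)
      have hr : Commute (S (l + d' + 1 + 1)) (fa C S l d') :=
        S_fr_right L H l _ d' (by omega)
      change S (l + d' + 1) * ((S (l + (d' + 1) + 1))⁻¹ * ((S (l + d' + 1))⁻¹ * fa C S l d' *
        S (l + d' + 1)) * S (l + (d' + 1) + 1)) = (S (l + (d' + 1) + 1))⁻¹ *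
        ((S (l + d' + 1))⁻¹ * fa C S l d' * S (l + d' + 1)) * S (l + (d' + 1) + 1) *
        S (l + d' + 1)
      rw [e1]
      generalize S (l + d' + 1) = s at *
      generalize S (l + d' + 1 + 1) = t at *
      generalize fa C S l d' = x at *
      have e2 : s * t⁻¹ * s⁻¹ = t⁻¹ * s⁻¹ * t := by
        have h2 : (t⁻¹ * s⁻¹ * t) * s * t = s := by
          calc (t⁻¹ * s⁻¹ * t) * s * t = t⁻¹ * s⁻¹ * (t * s * t) := by group
            _ = s := by rw [← hb]; group
        calc s * t⁻¹ * s⁻¹ = ((t⁻¹ * s⁻¹ * t) * s * t) * t⁻¹ * s⁻¹ := by rw [h2]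
          _ = _ := by group
      have e3 : s * t * s⁻¹ = t⁻¹ * s * t := by
        have h2 : (t⁻¹ * s * t) * s = s * t := by
          calc (t⁻¹ * s * t) * s = t⁻¹ * (s * t * s) := by group
            _ = _ := by rw [hb]; group
        rw [← h2]; group
      have e4 : s * (t⁻¹ * (s⁻¹ * x * s) * t) = s * t⁻¹ * s⁻¹ * x * (s * t * s⁻¹) * s := by
        group
      rw [e4, e2, e3]
      calc t⁻¹ * s⁻¹ * t * x * (t⁻¹ * s * t) * s = t⁻¹ * s⁻¹ * (t * x) * t⁻¹ * s * t * s := by
            group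
        _ = _ := by rw [hr.eq]; group

/-- Moving the left end. -/
theorem S_fr_l (L : Lk g A B C S) (H : Hb g A B C S) (l : ℕ) :
    ∀ d, l + 2 + d < g → S l * fa C S (l + 1) d * (S l)⁻¹ = fa C S l (d + 1)
  | 0, hg => by
    change S l * C (l + 1) * (S l)⁻¹ = (S (l + 0 + 1))⁻¹ * C l * S (l + 0 + 1)
    have h1 := L.SSC' l (by omega)
    rw [Nat.add_zero, mul_inv_eq_iff_eq_mul]
    calc S l * C (l + 1) = (S (l + 1))⁻¹ * (S (l + 1) * S l * C (l + 1)) := by group
      _ = _ := by rw [h1]; group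
  | d + 1, hg => by
    have ih := S_fr_l L H l d (by omega)
    have h1 : Commute (S l) (S (l + 1 + d + 1)) := H.SS _ _ (by omega)
    change S l * ((S (l + 1 + d + 1))⁻¹ * fa C S (l + 1) d * S (l + 1 + d + 1)) * (S l)⁻¹ =
      (S (l + (d + 1) + 1))⁻¹ * fa C S l (d + 1) * S (l + (d + 1) + 1)
    rw [← ih, show l + (d + 1) + 1 = l + 1 + d + 1 by omega]
    calc S l * ((S (l + 1 + d + 1))⁻¹ * fa C S (l + 1) d * S (l + 1 + d + 1)) * (S l)⁻¹ =
        (S l * (S (l + 1 + d + 1))⁻¹) * fa C S (l + 1) d * (S (l + 1 + d + 1) * (S l)⁻¹) := by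
          group
      _ = _ := by rw [h1.inv_right.eq, h1.symm.inv_right.eq]; group

/-- Moving the right end. -/
theorem S_fr_r (l d : ℕ) : S (l + d + 1) * fa C S l (d + 1) * (S (l + d + 1))⁻¹ = fa C S l d := by
  change S (l + d + 1) * ((S (l + d + 1))⁻¹ * fa C S l d * S (l + d + 1)) *
    (S (l + d + 1))⁻¹ = fa C S l d
  group

/-- The group of the twists disjoint from the `A`'s, with the half turns, of the first `N`
handles. -/
def DD (A B C S : ℕ → Γ) (N : ℕ) : Subgroup Γ :=
  Subgroup.closure ({x | ∃ k, k < N ∧ (x = A k ∨ x = io A B k)} ∪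
    {x | ∃ l d, l + d + 1 < N ∧ x = fa C S l d})

theorem A_mem_DD {N k : ℕ} (h : k < N) : A k ∈ DD A B C S N :=
  Subgroup.subset_closure (Or.inl ⟨k, h, Or.inl rfl⟩)

theorem io_mem_DD {N k : ℕ} (h : k < N) : io A B k ∈ DD A B C S N :=
  Subgroup.subset_closure (Or.inl ⟨k, h, Or.inr rfl⟩)

theorem fr_mem_DD {N l d : ℕ} (h : l + d + 1 < N) : fa C S l d ∈ DD A B C S N :=
  Subgroup.subset_closure (Or.inr ⟨l, d, h, rfl⟩)

theorem DD_mono {N N' : ℕ} (h : N ≤ N') : DD A B C S N ≤ DD A B C S N' := by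
  apply Subgroup.closure_mono
  rintro x (⟨k, h1, h2⟩ | ⟨l, d, h1, rfl⟩)
  · exact Or.inl ⟨k, by omega, h2⟩
  · exact Or.inr ⟨l, d, by omega, rfl⟩

theorem SS_mem_DD (H : Hb g A B C S) {N i : ℕ} (hN : N ≤ g) (hi : i + 1 < N) :
    S i * S i ∈ DD A B C S N := by
  rw [H.R6 i (by omega)]
  have a1 : A i ∈ DD A B C S N := A_mem_DD (by omega)
  have a2 : A (i + 1) ∈ DD A B C S N := A_mem_DD hi
  have i1 : io A B i ∈ DD A B C S N := io_mem_DD (by omega)
  have i2 : io A B (i + 1) ∈ DD A B C S N := io_mem_DD hi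
  have c : C i ∈ DD A B C S N := fr_mem_DD (l := i) (d := 0) (by omega)
  exact mul_mem (mul_mem (mul_mem (mul_mem (mul_mem
    (mul_mem (mul_mem (mul_mem (mul_mem (inv_mem i1) (inv_mem i2)) c) i2) i1)
    (mul_mem (mul_mem (inv_mem i1) c) i1)) (mul_mem (mul_mem (inv_mem i2) c) i2)) c)
    (pow_mem (inv_mem a1) 4)) (pow_mem (inv_mem a2) 4)

/-- The exchanges normalise the group. -/
theorem S_conj_gen (L : Lk g A B C S) (H : Hb g A B C S) {N i : ℕ} (hN : N ≤ g)
    (hi : i + 1 < N) {x : Γ}
    (hx : x ∈ ({x | ∃ k, k < N ∧ (x = A k ∨ x = io A B k)} ∪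
      {x | ∃ l d, l + d + 1 < N ∧ x = fa C S l d} : Set Γ)) :
    S i * x * (S i)⁻¹ ∈ DD A B C S N := by
  have hig : i + 1 < g := by omega
  rcases hx with ⟨k, hk, rfl | rfl⟩ | ⟨l, d, h, rfl⟩
  · by_cases h1 : k = i
    · subst h1
      rw [L.SA k hig, mul_inv_cancel_right]
      exact A_mem_DD hi
    · by_cases h2 : k = i + 1
      · subst h2
        rw [L.SA' i hig, mul_inv_cancel_right]
        exact A_mem_DD (by omega)
      · rw [(L.SAo i k h1 h2).eq, mul_inv_cancel_right]
        exact A_mem_DD hk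
  · by_cases h1 : k = i
    · subst h1
      rw [S_io L hig, mul_inv_cancel_right]
      exact io_mem_DD hi
    · by_cases h2 : k = i + 1
      · subst h2
        rw [S_io' L hig, mul_inv_cancel_right]
        exact io_mem_DD (by omega)
      · rw [(S_io_o L h1 h2).eq, mul_inv_cancel_right]
        exact io_mem_DD hk
  · have hss := SS_mem_DD H hN hi
    by_cases c1 : i + 1 < l
    · rw [(S_fr_left L H l i c1 d).eq, mul_inv_cancel_right]
      exact fr_mem_DD h
    · by_cases c2 : i + 1 = l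
      · subst c2
        rw [S_fr_l L H i d (by omega)]
        exact fr_mem_DD (by omega)
      · by_cases c3 : i = l
        · subst c3
          cases d with
          | zero =>
            change S i * C i * (S i)⁻¹ ∈ _
            rw [H.R7 i hig]
            have i1 : io A B i ∈ DD A B C S N := io_mem_DD (by omega)
            have i2 : io A B (i + 1) ∈ DD A B C S N := io_mem_DD hi
            exact mul_mem (mul_mem (inv_mem (mul_mem i1 i2)) (fr_mem_DD (l := i) (d := 0) h))
              (mul_mem i1 i2)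
          | succ d =>
            rw [← S_fr_l L H i d (by omega)]
            have h1 : S i * (S i * fa C S (i + 1) d * (S i)⁻¹) * (S i)⁻¹ =
                S i * S i * fa C S (i + 1) d * (S i * S i)⁻¹ := by group
            rw [h1]
            exact mul_mem (mul_mem hss (fr_mem_DD (by omega))) (inv_mem hss)
        · -- now `l < i`
          by_cases c4 : l + d + 1 < i
          · rw [(S_fr_right L H l i d c4).eq, mul_inv_cancel_right]
            exact fr_mem_DD h
          · by_cases c5 : l + d + 1 = i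
            · subst c5
              rw [← S_fr_r (C := C) (S := S) l d]
              have h1 : S (l + d + 1) * (S (l + d + 1) * fa C S l (d + 1) * (S (l + d + 1))⁻¹) *
                  (S (l + d + 1))⁻¹ = S (l + d + 1) * S (l + d + 1) * fa C S l (d + 1) *
                  (S (l + d + 1) * S (l + d + 1))⁻¹ := by group
              rw [h1]
              exact mul_mem (mul_mem hss (fr_mem_DD (by omega))) (inv_mem hss)
            · by_cases c6 : l + d + 1 = i + 1
              · obtain ⟨d', rfl⟩ : ∃ d', d = d' + 1 := ⟨d - 1, by omega⟩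
                obtain rfl : i = l + d' + 1 := by omega
                rw [S_fr_r]
                exact fr_mem_DD (by omega)
              · rw [(S_fr_mid L H l i (by omega) d (by omega) (by omega)).eq,
                  mul_inv_cancel_right]
                exact fr_mem_DD h

theorem conj_mem_of_gen {D : Subgroup Γ} {X : Set Γ} (hD : D = Subgroup.closure X) {s : Γ}
    (h : ∀ x ∈ X, s * x * s⁻¹ ∈ D) : ∀ x ∈ D, s * x * s⁻¹ ∈ D := by
  intro x hx
  have hle : D ≤ D.comap (MulAut.conj s).toMonoidHom := by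
    conv_lhs => rw [hD]
    rw [Subgroup.closure_le]
    exact h
  exact hle hx

theorem S_conj (L : Lk g A B C S) (H : Hb g A B C S) {N i : ℕ} (hN : N ≤ g) (hi : i + 1 < N)
    {x : Γ} (hx : x ∈ DD A B C S N) : S i * x * (S i)⁻¹ ∈ DD A B C S N :=
  conj_mem_of_gen rfl (fun _ hy => S_conj_gen L H hN hi hy) x hx

theorem S_conj' (L : Lk g A B C S) (H : Hb g A B C S) {N i : ℕ} (hN : N ≤ g) (hi : i + 1 < N)
    {x : Γ} (hx : x ∈ DD A B C S N) : (S i)⁻¹ * x * S i ∈ DD A B C S N := by
  have h1 := S_conj L H hN hi hx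
  have hss := SS_mem_DD H hN hi
  have h2 : (S i)⁻¹ * x * S i = (S i * S i)⁻¹ * (S i * x * (S i)⁻¹) * (S i * S i) := by group
  rw [h2]
  exact mul_mem (mul_mem (inv_mem hss) h1) hss

/-! ### Permutations of the handles -/

/-- The group of the permutations of the first `N` handles, with their permutations. -/
def Bb (A B S : ℕ → Γ) (N : ℕ) : Subgroup (Γ × Equiv.Perm ℕ) :=
  Subgroup.closure ({p | ∃ i, i + 1 < N ∧ p = (S i, Equiv.swap i (i + 1))} ∪
    {p | ∃ k, k < N ∧ p = (io A B k, 1)})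

theorem S_mem_Bb {N i : ℕ} (h : i + 1 < N) : (S i, Equiv.swap i (i + 1)) ∈ Bb A B S N :=
  Subgroup.subset_closure (Or.inl ⟨i, h, rfl⟩)

theorem io_mem_Bb {N k : ℕ} (h : k < N) : (io A B k, (1 : Equiv.Perm ℕ)) ∈ Bb A B S N :=
  Subgroup.subset_closure (Or.inr ⟨k, h, rfl⟩)

theorem Bb_mono {N N' : ℕ} (h : N ≤ N') : Bb A B S N ≤ Bb A B S N' := by
  apply Subgroup.closure_mono
  rintro p (⟨i, h1, rfl⟩ | ⟨k, h1, rfl⟩)
  · exact Or.inl ⟨i, by omega, rfl⟩
  · exact Or.inr ⟨k, by omega, rfl⟩

/-- Induction over the group. -/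
theorem Bb_le {N : ℕ} {Q : Subgroup (Γ × Equiv.Perm ℕ)}
    (h1 : ∀ i, i + 1 < N → (S i, Equiv.swap i (i + 1)) ∈ Q)
    (h2 : ∀ k, k < N → (io A B k, (1 : Equiv.Perm ℕ)) ∈ Q) : Bb A B S N ≤ Q := by
  rw [Bb, Subgroup.closure_le]
  rintro p (⟨i, h, rfl⟩ | ⟨k, h, rfl⟩)
  · exact h1 i h
  · exact h2 k h

/-- The elements permuting `T 0, T 1, …`. -/
def permS (T : ℕ → Γ) : Subgroup (Γ × Equiv.Perm ℕ) where
  carrier := {p | ∀ k, p.1 * T k = T (p.2 k) * p.1}
  one_mem' := fun k => by
    change 1 * T k = T k * 1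
    rw [one_mul, mul_one]
  mul_mem' := by
    intro p r hp hr k
    have h1 := hp (r.2 k)
    have h2 := hr k
    change p.1 * r.1 * T k = T (p.2 (r.2 k)) * (p.1 * r.1)
    rw [mul_assoc, h2, ← mul_assoc, h1, mul_assoc]
  inv_mem' := by
    intro p hp k
    have h1 := hp (p.2.symm k)
    rw [Equiv.apply_symm_apply] at h1
    change p.1⁻¹ * T k = T (p.2.symm k) * p.1⁻¹
    rw [inv_mul_eq_iff_eq_mul, ← mul_assoc, h1, mul_inv_cancel_right]

theorem Bb_A (L : Lk g A B C S) {N : ℕ} (hN : N ≤ g) : Bb A B S N ≤ permS A := by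
  refine Bb_le (fun i hi k => ?_) fun k hk j => ?_
  · change S i * A k = A (Equiv.swap i (i + 1) k) * S i
    by_cases h1 : k = i
    · subst h1
      rw [Equiv.swap_apply_left]
      exact L.SA _ (by omega)
    · by_cases h2 : k = i + 1
      · subst h2
        rw [Equiv.swap_apply_right]
        exact L.SA' _ (by omega)
      · rw [Equiv.swap_apply_of_ne_of_ne h1 h2]
        exact (L.SAo i k h1 h2).eq
  · change io A B k * A j = A j * io A B k
    by_cases h1 : k = j
    · subst h1
      exact (io_comm_A' L k).eq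
    · exact (io_comm_A L k j h1).eq

theorem Bb_B (L : Lk g A B C S) {N : ℕ} (hN : N ≤ g) : Bb A B S N ≤ permS B := by
  refine Bb_le (fun i hi k => ?_) fun k hk j => ?_
  · change S i * B k = B (Equiv.swap i (i + 1) k) * S i
    by_cases h1 : k = i
    · subst h1
      rw [Equiv.swap_apply_left]
      exact L.SB _ (by omega)
    · by_cases h2 : k = i + 1
      · subst h2
        rw [Equiv.swap_apply_right]
        exact L.SB' _ (by omega)
      · rw [Equiv.swap_apply_of_ne_of_ne h1 h2]
        exact (L.SBo i k h1 h2).eq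
  · change io A B k * B j = B j * io A B k
    by_cases h1 : k = j
    · subst h1
      exact (io_comm_B' L k).eq
    · exact (io_comm_B L k j h1).eq

/-- The elements normalising a subgroup. -/
def normS (D : Subgroup Γ) : Subgroup (Γ × Equiv.Perm ℕ) where
  carrier := {p | ∀ x, p.1⁻¹ * x * p.1 ∈ D ↔ x ∈ D}
  one_mem' := fun x => by
    change (1 : Γ)⁻¹ * x * 1 ∈ D ↔ _
    rw [inv_one, one_mul, mul_one]
  mul_mem' := by
    intro p r hp hr x
    change (p.1 * r.1)⁻¹ * x * (p.1 * r.1) ∈ D ↔ _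
    rw [← hp x, ← hr (p.1⁻¹ * x * p.1)]
    have h1 : (p.1 * r.1)⁻¹ * x * (p.1 * r.1) = r.1⁻¹ * (p.1⁻¹ * x * p.1) * r.1 := by group
    rw [h1]
  inv_mem' := by
    intro p hp x
    change (p.1⁻¹)⁻¹ * x * p.1⁻¹ ∈ D ↔ _
    rw [← hp ((p.1⁻¹)⁻¹ * x * p.1⁻¹)]
    have h1 : p.1⁻¹ * ((p.1⁻¹)⁻¹ * x * p.1⁻¹) * p.1 = x := by group
    rw [h1]

theorem Bb_D (L : Lk g A B C S) (H : Hb g A B C S) {N N' : ℕ} (hN : N ≤ g) (hN' : N' ≤ N) :
    Bb A B S N' ≤ normS (DD A B C S N) := by
  refine Bb_le (fun i hi x => ?_) fun k hk x => ?_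
  · change (S i)⁻¹ * x * S i ∈ _ ↔ _
    constructor
    · intro h
      have h1 := S_conj L H hN (show i + 1 < N by omega) h
      have h2 : S i * ((S i)⁻¹ * x * S i) * (S i)⁻¹ = x := by group
      rwa [h2] at h1
    · exact S_conj' L H hN (show i + 1 < N by omega)
  · change (io A B k)⁻¹ * x * io A B k ∈ _ ↔ _
    have hI : io A B k ∈ DD A B C S N := io_mem_DD (by omega)
    constructor
    · intro h
      have h1 := mul_mem (mul_mem hI h) (inv_mem hI)
      have h2 : io A B k * ((io A B k)⁻¹ * x * io A B k) * (io A B k)⁻¹ = x := by group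
      rwa [h2] at h1
    · intro h
      exact mul_mem (mul_mem (inv_mem hI) h) hI

/-- The permutations preserve the set of the first `N` handles and fix the others. -/
theorem Bb_fix {N : ℕ} : ∀ p ∈ Bb A B S N, ∀ k, N ≤ k → p.2 k = k := by
  let Q : Subgroup (Γ × Equiv.Perm ℕ) :=
    { carrier := {p | ∀ k, N ≤ k → p.2 k = k}
      one_mem' := fun k _ => rfl
      mul_mem' := by
        intro p r hp hr k hk
        change p.2 (r.2 k) = k
        rw [hr k hk, hp k hk]
      inv_mem' := by
        intro p hp k hk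
        change p.2.symm k = k
        rw [Equiv.symm_apply_eq, hp k hk] }
  have h1 : Bb A B S N ≤ Q := by
    refine Bb_le (fun i hi k hk => ?_) fun k _ j _ => rfl
    exact Equiv.swap_apply_of_ne_of_ne (by omega) (by omega)
  exact fun p hp => h1 hp

theorem Bb_lt {N : ℕ} {p : Γ × Equiv.Perm ℕ} (hp : p ∈ Bb A B S N) (k : ℕ) :
    p.2 k < N ↔ k < N := by
  constructor
  · intro h
    by_contra h1
    rw [Bb_fix p hp k (by omega)] at h
    exact h1 h
  · intro h
    by_contra h1
    have h2 := Bb_fix p hp (p.2 k) (by omega)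
    have h3 := p.2.injective h2
    omega

end

end Pool.MP_59b15d_al.H60E
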