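import Mathlib
import Pool.Agent.H.MP_59b15d_al.h60e.Hb

set_option autoImplicit false

/-!
# The pushes of a foot of the last handle
-/

namespace Pool.MP_59b15d_al.H60E

open Module Pool.MP_59b15d_al.H95E Pool.MP_59b15d_al.H93E

variable {Γ : Type*} [Group Γ]

/-- The push around `q l`. -/
def XQ (XA XB : ℕ → Γ) (l : ℕ) : Γ := XB l * (XA l)⁻¹ * (XB l)⁻¹

/-- The pushes which are disjoint from all `b l`. -/
def XS (n : ℕ) (XA XB : ℕ → Γ) : Set Γ := {x | ∃ l, l < n ∧ (x = XA l ∨ x = XQ XA XB l)}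

/-- The group of the pushes which are disjoint from the curves of `K`. -/
def PG (n : ℕ) (A XA XB : ℕ → Γ) (K : Finset ℕ) : Subgroup Γ :=
  Subgroup.closure (insert (A n) (XS n XA XB ∪ {x | ∃ l, l < n ∧ l ∉ K ∧ x = XB l}))

/-- The relations of the pushes `XA l`, `XB l` of a foot of the handle `n`, modulo the powers of
`A n`. -/
structure Pu (n : ℕ) (A B C S XA XB : ℕ → Γ) : Prop where
  cA : ∀ l, l < n → Commute (XA l) (A n)
  cB : ∀ l, l < n → Commute (XB l) (A n)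
  pA : ∀ k, k < n → ∀ K : Finset ℕ, ∀ y ∈ PG n A XA XB K,
    A k * y * (A k)⁻¹ ∈ PG n A XA XB K ∧ (A k)⁻¹ * y * A k ∈ PG n A XA XB K
  pC : ∀ k, k + 1 < n → ∀ K : Finset ℕ, ∀ y ∈ PG n A XA XB K,
    C k * y * (C k)⁻¹ ∈ PG n A XA XB K ∧ (C k)⁻¹ * y * C k ∈ PG n A XA XB K
  pI : ∀ k, k < n → ∀ K : Finset ℕ, ∀ y ∈ PG n A XA XB K,
    (A k * B k) ^ 3 * y * ((A k * B k) ^ 3)⁻¹ ∈ PG n A XA XB K ∧
      ((A k * B k) ^ 3)⁻¹ * y * (A k * B k) ^ 3 ∈ PG n A XA XB K
  pB : ∀ k, k < n → ∀ K : Finset ℕ, k ∉ K → ∀ y ∈ PG n A XA XB K,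
    B k * y * (B k)⁻¹ ∈ PG n A XA XB K ∧ (B k)⁻¹ * y * B k ∈ PG n A XA XB K
  pS : ∀ k, k + 1 < n → ∀ K : Finset ℕ, ∀ y ∈ PG n A XA XB K,
    S k * y * (S k)⁻¹ ∈ PG n A XA XB (K.map (Equiv.swap k (k + 1)).toEmbedding)
  pSi : ∀ k, k + 1 < n → ∀ K : Finset ℕ,
    ∀ y ∈ PG n A XA XB (K.map (Equiv.swap k (k + 1)).toEmbedding),
    (S k)⁻¹ * y * S k ∈ PG n A XA XB K
  last : ∀ k, k + 1 = n → ∃ j : ℤ, XQ XA XB k = A k * (C k)⁻¹ * A n ^ j
  ioQ : ∀ l, l < n → ∃ j : ℤ,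
    (A l * B l) ^ 3 * XQ XA XB l * ((A l * B l) ^ 3)⁻¹ = XA l * A n ^ j
  BXA : ∀ l, l < n → ∃ j : ℤ, B l * XA l * (B l)⁻¹ = XA l * XB l * A n ^ j
  BAQ : ∀ l, l < n → ∃ j : ℤ,
    (B l * A l) * XQ XA XB l * (B l * A l)⁻¹ = (XA l)⁻¹ * (XB l)⁻¹ * A n ^ j
  SXB : ∀ k, k + 1 < n → ∃ j : ℤ, S k * XB (k + 1) * (S k)⁻¹ = XB k * A n ^ j
  SXQ : ∀ k, k + 1 < n → ∃ j : ℤ, S k * XQ XA XB (k + 1) * (S k)⁻¹ = XQ XA XB k * A n ^ j

/-- The elements normalising a subgroup. -/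
def nm (P : Subgroup Γ) : Subgroup Γ where
  carrier := {x | ∀ y ∈ P, x * y * x⁻¹ ∈ P ∧ x⁻¹ * y * x ∈ P}
  one_mem' := fun y hy => by
    rw [one_mul, inv_one, mul_one, one_mul, mul_one]
    exact ⟨hy, hy⟩
  mul_mem' := by
    intro x z hx hz y hy
    have e1 : x * z * y * (x * z)⁻¹ = x * (z * y * z⁻¹) * x⁻¹ := by group
    have e2 : (x * z)⁻¹ * y * (x * z) = z⁻¹ * (x⁻¹ * y * x) * z := by group
    rw [e1, e2]
    exact ⟨(hx _ (hz y hy).1).1, (hz _ (hx y hy).2).2⟩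
  inv_mem' := by
    intro x hx y hy
    rw [inv_inv]
    exact ⟨(hx y hy).2, (hx y hy).1⟩

theorem mem_nm {P : Subgroup Γ} {x : Γ} :
    x ∈ nm P ↔ ∀ y ∈ P, x * y * x⁻¹ ∈ P ∧ x⁻¹ * y * x ∈ P := Iff.rfl

theorem map_one_perm (K : Finset ℕ) : K.map (1 : Equiv.Perm ℕ).toEmbedding = K := by
  ext x
  rw [Finset.mem_map]
  constructor
  · rintro ⟨y, hy, rfl⟩
    exact hy
  · intro hx
    exact ⟨x, hx, rfl⟩

theorem map_inv_perm (p : Equiv.Perm ℕ) (K : Finset ℕ) :
    (K.map (p⁻¹).toEmbedding).map p.toEmbedding = K := by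
  ext x
  rw [Finset.mem_map]
  constructor
  · rintro ⟨y, hy, rfl⟩
    obtain ⟨z, hz, rfl⟩ := Finset.mem_map.1 hy
    change p (p.symm z) ∈ K
    rwa [Equiv.apply_symm_apply]
  · intro hx
    exact ⟨p.symm x, Finset.mem_map.2 ⟨x, hx, rfl⟩, p.apply_symm_apply x⟩

namespace Pu

variable {n : ℕ} {A B C S XA XB : ℕ → Γ} (P : Pu n A B C S XA XB)
include P

/-- The front arcs normalise the groups of pushes. -/
theorem fa_nm (l : ℕ) : ∀ d, l + d + 1 < n → ∀ K : Finset ℕ, fa C S l d ∈ nm (PG n A XA XB K)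
  | 0, h, K => P.pC l (by omega) K
  | d + 1, h, K => by
    have ih := fa_nm l d (by omega) (K.map (Equiv.swap (l + d + 1) (l + d + 1 + 1)).toEmbedding)
    intro y hy
    have h1 := P.pS (l + d + 1) (by omega) K y hy
    have h2 := ih _ h1
    have h3 := P.pSi (l + d + 1) (by omega) K _ h2.1
    have h4 := P.pSi (l + d + 1) (by omega) K _ h2.2
    change (S (l + d + 1))⁻¹ * fa C S l d * S (l + d + 1) * y *
      ((S (l + d + 1))⁻¹ * fa C S l d * S (l + d + 1))⁻¹ ∈ _ ∧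
      ((S (l + d + 1))⁻¹ * fa C S l d * S (l + d + 1))⁻¹ * y *
      ((S (l + d + 1))⁻¹ * fa C S l d * S (l + d + 1)) ∈ _
    constructor
    · convert h3 using 1
      group
    · convert h4 using 1
      group

theorem DD_nm (K : Finset ℕ) : DD A B C S n ≤ nm (PG n A XA XB K) := by
  rw [DD, Subgroup.closure_le]
  rintro x (⟨k, h1, rfl | rfl⟩ | ⟨l, d, h1, rfl⟩)
  · exact P.pA k h1 K
  · exact P.pI k h1 K
  · exact P.fa_nm l d h1 K

/-- The permutations of the first handles permute the groups of pushes. -/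
theorem Bb_PG : ∀ p ∈ Bb A B S n, ∀ K : Finset ℕ,
    ∀ y ∈ PG n A XA XB (K.map p.2.toEmbedding), p.1⁻¹ * y * p.1 ∈ PG n A XA XB K := by
  let Q : Subgroup (Γ × Equiv.Perm ℕ) :=
    { carrier := {p | ∀ K : Finset ℕ,
        (∀ y ∈ PG n A XA XB (K.map p.2.toEmbedding), p.1⁻¹ * y * p.1 ∈ PG n A XA XB K) ∧
        (∀ y ∈ PG n A XA XB K, p.1 * y * p.1⁻¹ ∈ PG n A XA XB (K.map p.2.toEmbedding))}
      one_mem' := fun K => by
        have e : K.map (1 : Equiv.Perm ℕ).toEmbedding = K := map_one_perm K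
        constructor
        · intro y hy
          change (1 : Γ)⁻¹ * y * 1 ∈ _
          rw [inv_one, one_mul, mul_one]
          change y ∈ PG n A XA XB (K.map (1 : Equiv.Perm ℕ).toEmbedding) at hy
          rwa [e] at hy
        · intro y hy
          change (1 : Γ) * y * 1⁻¹ ∈ PG n A XA XB (K.map (1 : Equiv.Perm ℕ).toEmbedding)
          rw [e, inv_one, one_mul, mul_one]
          exact hy
      mul_mem' := by
        intro p r hp hr K
        have e : K.map (p.2 * r.2).toEmbedding =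
            (K.map r.2.toEmbedding).map p.2.toEmbedding := by
          rw [Finset.map_map]
          rfl
        constructor
        · intro y hy
          change y ∈ PG n A XA XB (K.map (p.2 * r.2).toEmbedding) at hy
          rw [e] at hy
          have h1 := (hr K).1 _ ((hp (K.map r.2.toEmbedding)).1 y hy)
          change (p.1 * r.1)⁻¹ * y * (p.1 * r.1) ∈ _
          convert h1 using 1
          group
        · intro y hy
          have h1 := (hp (K.map r.2.toEmbedding)).2 _ ((hr K).2 y hy)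
          change (p.1 * r.1) * y * (p.1 * r.1)⁻¹ ∈
            PG n A XA XB (K.map (p.2 * r.2).toEmbedding)
          rw [e]
          convert h1 using 1
          group
      inv_mem' := by
        intro p hp K
        have e : (K.map (p.2⁻¹).toEmbedding).map p.2.toEmbedding = K := map_inv_perm p.2 K
        constructor
        · intro y hy
          change y ∈ PG n A XA XB (K.map (p.2⁻¹).toEmbedding) at hy
          have h1 := (hp (K.map (p.2⁻¹).toEmbedding)).2 y hy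
          rw [e] at h1
          change (p.1⁻¹)⁻¹ * y * p.1⁻¹ ∈ _
          rwa [inv_inv]
        · intro y hy
          rw [← e] at hy
          have h1 := (hp (K.map (p.2⁻¹).toEmbedding)).1 y hy
          change p.1⁻¹ * y * (p.1⁻¹)⁻¹ ∈ PG n A XA XB (K.map (p.2⁻¹).toEmbedding)
          rwa [inv_inv] }
  have h1 : Bb A B S n ≤ Q := by
    refine Bb_le (fun i hi K => ⟨P.pSi i hi K, P.pS i hi K⟩) fun k hk K => ?_
    have e : K.map (1 : Equiv.Perm ℕ).toEmbedding = K := map_one_perm K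
    constructor
    · intro y hy
      change y ∈ PG n A XA XB (K.map (1 : Equiv.Perm ℕ).toEmbedding) at hy
      rw [e] at hy
      exact (P.pI k hk K y hy).2
    · intro y hy
      change _ ∈ PG n A XA XB (K.map (1 : Equiv.Perm ℕ).toEmbedding)
      rw [e]
      exact (P.pI k hk K y hy).1
  exact fun p hp K => (h1 hp K).1

variable (L : Lk (n + 1) A B C S) (H : Hb (n + 1) A B C S)
include L H

/-- The push around `q l` is a product of two twists, modulo the powers of `A n`. -/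
theorem XQ_eq : ∀ d l, l + d + 1 = n →
    ∃ j : ℤ, XQ XA XB l = A l * (fa C S l d)⁻¹ * A n ^ j := by
  intro d
  induction d with
  | zero =>
    intro l hl
    exact P.last l (by omega)
  | succ d ih =>
    intro l hl
    obtain ⟨j, hj⟩ := ih (l + 1) (by omega)
    obtain ⟨j', hj'⟩ := P.SXQ l (by omega)
    have h1 := S_fr_l L H l d (by omega)
    have h2 := L.SA' l (by omega)
    have h3 : Commute (S l) (A n ^ j) := (L.SAo l n (by omega) (by omega)).zpow_right j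
    refine ⟨j - j', ?_⟩
    have h4 : XQ XA XB l = S l * XQ XA XB (l + 1) * (S l)⁻¹ * (A n ^ j')⁻¹ := by
      rw [hj']; group
    rw [h4, hj, ← h1, zpow_sub]
    have h5 : A l = S l * A (l + 1) * (S l)⁻¹ := by rw [h2]; group
    rw [h5]
    calc S l * (A (l + 1) * (fa C S (l + 1) d)⁻¹ * A n ^ j) * (S l)⁻¹ * (A n ^ j')⁻¹ =
        S l * A (l + 1) * (fa C S (l + 1) d)⁻¹ * (A n ^ j * (S l)⁻¹) * (A n ^ j')⁻¹ := by group
      _ = S l * A (l + 1) * (fa C S (l + 1) d)⁻¹ * ((S l)⁻¹ * A n ^ j) * (A n ^ j')⁻¹ := by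
        rw [h3.inv_left.eq]
      _ = _ := by group

theorem XQ_mem {l : ℕ} (hl : l < n) : XQ XA XB l ∈ DD A B C S (n + 1) := by
  obtain ⟨j, hj⟩ := P.XQ_eq L H (n - 1 - l) l (by omega)
  rw [hj]
  exact mul_mem (mul_mem (A_mem_DD (by omega)) (inv_mem (fr_mem_DD (by omega))))
    (zpow_mem (A_mem_DD (by omega)) j)

theorem XA_mem {l : ℕ} (hl : l < n) : XA l ∈ DD A B C S (n + 1) := by
  obtain ⟨j, hj⟩ := P.ioQ l hl
  have h1 : XA l = (A l * B l) ^ 3 * XQ XA XB l * ((A l * B l) ^ 3)⁻¹ * (A n ^ j)⁻¹ := by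
    rw [hj]; group
  have hI : (A l * B l) ^ 3 ∈ DD A B C S (n + 1) := io_mem_DD (by omega)
  rw [h1]
  exact mul_mem (mul_mem (mul_mem hI (P.XQ_mem L H hl)) (inv_mem hI))
    (inv_mem (zpow_mem (A_mem_DD (by omega)) j))

theorem XS_sub : XS n XA XB ⊆ DD A B C S (n + 1) := by
  rintro x ⟨l, hl, rfl | rfl⟩
  · exact P.XA_mem L H hl
  · exact P.XQ_mem L H hl

omit L H in
theorem XB_eq {l : ℕ} (hl : l < n) :
    ∃ j : ℤ, XB l = (XA l)⁻¹ * B l * XA l * (B l)⁻¹ * A n ^ j := by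
  obtain ⟨j, hj⟩ := P.BXA l hl
  refine ⟨-j, ?_⟩
  calc XB l = (XA l)⁻¹ * (XA l * XB l * A n ^ j) * A n ^ (-j) := by group
    _ = _ := by rw [← hj]; group

/-- Generators of `DD (n + 1)`. -/
theorem DD_le : DD A B C S (n + 1) ≤ Subgroup.closure ((DD A B C S n : Set Γ) ∪
    (insert (A n) (insert ((A n * B n) ^ 3) (XS n XA XB)))) := by
  rw [DD, Subgroup.closure_le]
  have hA : A n ∈ Subgroup.closure ((DD A B C S n : Set Γ) ∪
      (insert (A n) (insert ((A n * B n) ^ 3) (XS n XA XB)))) :=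
    Subgroup.subset_closure (Or.inr (Or.inl rfl))
  have hD : ∀ x ∈ DD A B C S n, x ∈ Subgroup.closure ((DD A B C S n : Set Γ) ∪
      (insert (A n) (insert ((A n * B n) ^ 3) (XS n XA XB)))) := fun x hx =>
    Subgroup.subset_closure (Or.inl hx)
  rintro x (⟨k, h1, h2⟩ | ⟨l, d, h1, rfl⟩)
  · by_cases hk : k < n
    · rcases h2 with rfl | rfl
      · exact hD _ (A_mem_DD hk)
      · exact hD _ (io_mem_DD hk)
    · obtain rfl : k = n := by omega
      rcases h2 with rfl | rfl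
      · exact hA
      · exact Subgroup.subset_closure (Or.inr (Or.inr (Or.inl rfl)))
  · by_cases hl : l + d + 1 < n
    · exact hD _ (fr_mem_DD hl)
    · obtain ⟨j, hj⟩ := P.XQ_eq L H d l (by omega)
      have h2 : fa C S l d = (A n ^ j) * (XQ XA XB l)⁻¹ * A l := by
        rw [hj]; group
      rw [h2]
      refine mul_mem (mul_mem (zpow_mem hA j) (inv_mem (Subgroup.subset_closure
        (Or.inr (Or.inr (Or.inr ⟨l, by omega, Or.inr rfl⟩)))))) (hD _ (A_mem_DD (by omega)))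

end Pu

end Pool.MP_59b15d_al.H60E
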