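import Mathlib
import Pool.Agent.H.MP_59b15d_al.h60e.Hb

set_option autoImplicit false

/-!
# Rotations, and an exact family away from the last handle
-/

namespace Pool.MP_59b15d_al.H60E

open Module Pool.MP_59b15d_al.H95E Pool.MP_59b15d_al.H93E

variable {F V Γ : Type*} [Field F] [AddCommGroup V] [Module F V] [Group Γ]
  {ρ : Γ →* Module.End F V} {g : ℕ} {A B C S : ℕ → Γ}

/-! ### Rotations -/

/-- The permutation of `rt S i d`. -/
def pr (i : ℕ) : ℕ → Equiv.Perm ℕ
  | 0 => 1
  | d + 1 => pr i d * Equiv.swap (i + d) (i + d + 1)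

theorem rt_mem {N i : ℕ} : ∀ d, i + d < N → (rt S i d, pr i d) ∈ Bb A B S N
  | 0, _ => one_mem _
  | d + 1, h => mul_mem (rt_mem d (by omega)) (S_mem_Bb (by omega))

theorem pr_fix {i k : ℕ} : ∀ d, (k < i ∨ i + d < k) → pr i d k = k
  | 0, _ => rfl
  | d + 1, h => by
    change pr i d (Equiv.swap (i + d) (i + d + 1) k) = k
    rw [Equiv.swap_apply_of_ne_of_ne (by omega) (by omega), pr_fix d (by omega)]

theorem pr_end {i : ℕ} : ∀ d, pr i d (i + d) = i
  | 0 => rfl
  | d + 1 => by
    change pr i d (Equiv.swap (i + d) (i + d + 1) (i + d + 1)) = i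
    rw [Equiv.swap_apply_right, pr_end d]

theorem pr_mid {i k : ℕ} : ∀ d, i ≤ k → k < i + d → pr i d k = k + 1
  | 0, h1, h2 => by omega
  | d + 1, h1, h2 => by
    change pr i d (Equiv.swap (i + d) (i + d + 1) k) = k + 1
    by_cases h : k = i + d
    · rw [h, Equiv.swap_apply_left, pr_fix d (by omega)]
    · rw [Equiv.swap_apply_of_ne_of_ne h (by omega), pr_mid d h1 (by omega)]

theorem rt_split (S : ℕ → Γ) (i d : ℕ) : ∀ e, rt S i (d + e) = rt S i d * rt S (i + d) e
  | 0 => (mul_one _).symm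
  | e + 1 => by
    change rt S i (d + e) * S (i + (d + e)) = rt S i d * (rt S (i + d) e * S (i + d + e))
    rw [rt_split S i d e, mul_assoc, add_assoc]

theorem rt_comm_of {x : Γ} {i : ℕ} : ∀ d, (∀ j, i ≤ j → j < i + d → Commute (S j) x) →
    Commute (rt S i d) x
  | 0, _ => Commute.one_left x
  | d + 1, h => (rt_comm_of d fun j h1 h2 => h j h1 (by omega)).mul_left
      (h (i + d) (by omega) (by omega))

theorem rt_mem_of {K : Subgroup Γ} {i : ℕ} : ∀ d, (∀ j, i ≤ j → j < i + d → S j ∈ K) →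
    rt S i d ∈ K
  | 0, _ => one_mem _
  | d + 1, h => mul_mem (rt_mem_of d fun j h1 h2 => h j h1 (by omega))
      (h (i + d) (by omega) (by omega))

theorem rt_A (L : Lk g A B C S) {i d : ℕ} (h : i + d < g) (k : ℕ) :
    rt S i d * A k = A (pr i d k) * rt S i d := Bb_A L le_rfl (rt_mem d h) k

theorem rt_B (L : Lk g A B C S) {i d : ℕ} (h : i + d < g) (k : ℕ) :
    rt S i d * B k = B (pr i d k) * rt S i d := Bb_B L le_rfl (rt_mem d h) k

theorem conj_of_eq {x y r : Γ} (h : r * x = y * r) : r * x * r⁻¹ = y := by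
  rw [h, mul_inv_cancel_right]

theorem io_conj {r : Γ} {k k' : ℕ} (h1 : r * A k = A k' * r) (h2 : r * B k = B k' * r) :
    r * io A B k = io A B k' * r := by
  have e : r * (A k * B k) * r⁻¹ = A k' * B k' := by
    rw [← mul_assoc, h1, mul_assoc (A k'), h2]
    group
  rw [io, io, ← e, conj_pow]
  group

theorem rt_io (L : Lk g A B C S) {i d : ℕ} (h : i + d < g) (k : ℕ) :
    rt S i d * io A B k = io A B (pr i d k) * rt S i d := io_conj (rt_A L h k) (rt_B L h k)

theorem rt_S (L : Lk g A B C S) (H : Hb g A B C S) {i k : ℕ} (hik : i ≤ k) :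
    ∀ d, k + 1 < i + d → i + d < g → rt S i d * S k = S (k + 1) * rt S i d
  | 0, h, _ => by omega
  | d + 1, h, hg => by
    by_cases h1 : k + 1 < i + d
    · have ih := rt_S L H hik d h1 (by omega)
      change rt S i d * S (i + d) * S k = S (k + 1) * (rt S i d * S (i + d))
      rw [mul_assoc, (H.SS k (i + d) (by omega)).symm.eq, ← mul_assoc, ih, mul_assoc]
    · obtain ⟨d', rfl⟩ : ∃ d', d = d' + 1 := ⟨d - 1, by omega⟩
      obtain rfl : k = i + d' := by omega
      have hb := H.br (i + d') (by omega)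
      have hc : Commute (rt S i d') (S (i + d' + 1)) :=
        rt_comm_of d' fun j h2 h3 => H.SS j _ (by omega)
      change rt S i d' * S (i + d') * S (i + (d' + 1)) * S (i + d') =
        S (i + d' + 1) * (rt S i d' * S (i + d') * S (i + (d' + 1)))
      rw [show i + (d' + 1) = i + d' + 1 by omega]
      calc rt S i d' * S (i + d') * S (i + d' + 1) * S (i + d') =
          rt S i d' * (S (i + d') * S (i + d' + 1) * S (i + d')) := by group
        _ = rt S i d' * S (i + d' + 1) * (S (i + d') * S (i + d' + 1)) := by rw [hb]; group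
        _ = _ := by rw [hc.eq]; group

theorem rt_fr_r (S : ℕ → Γ) (l e : ℕ) {i : ℕ} (hi : l + e + 1 = i) :
    ∀ d, rt S i d * fa C S l (e + d) * (rt S i d)⁻¹ = fa C S l e
  | 0 => by
    change 1 * fa C S l e * 1⁻¹ = _
    group
  | d + 1 => by
    have ih := rt_fr_r S l e hi d
    have h1 := S_fr_r (C := C) (S := S) l (e + d)
    rw [show l + (e + d) + 1 = i + d by omega] at h1
    change rt S i d * S (i + d) * fa C S l (e + d + 1) * (rt S i d * S (i + d))⁻¹ = _
    rw [← ih, ← h1]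
    group

theorem rt_fr_l (L : Lk g A B C S) (H : Hb g A B C S) (i : ℕ) :
    ∀ d e, i + d + e + 1 < g →
      rt S i d * fa C S (i + d) e * (rt S i d)⁻¹ = fa C S i (e + d)
  | 0, e, _ => by
    change 1 * fa C S i e * 1⁻¹ = _
    group
  | d + 1, e, h => by
    have ih := rt_fr_l L H i d (e + 1) (by omega)
    have h1 := S_fr_l L H (i + d) e (by omega)
    rw [show e + (d + 1) = e + 1 + d by omega, ← ih, ← h1]
    change rt S i d * S (i + d) * fa C S (i + d + 1) e * (rt S i d * S (i + d))⁻¹ = _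
    group

/-! ### The subspace `W` -/

theorem fx_conj {W : Submodule F V} {s x : Γ} (hs : s ∈ sb ρ W) (hx : x ∈ fx ρ W) :
    s⁻¹ * x * s ∈ fx ρ W := by
  rw [← mem_fx_mv, mem_sb.1 hs]
  exact hx

theorem fx_conj' {W : Submodule F V} {s x : Γ} (hs : s ∈ sb ρ W) (hx : x ∈ fx ρ W) :
    s * x * s⁻¹ ∈ fx ρ W := by
  have h := fx_conj (inv_mem hs) hx
  rwa [inv_inv] at h

section W

variable {n m p : ℕ} {W : Submodule F V}
  (L : Lk (n + 1) A B C S) (H : Hb (n + 1) A B C S) (E : Ex ρ A B C S (n + 1) m W)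
  (hp : p + m = n)

include L E hp

omit L in
/-- The half turns stabilise `W`. -/
theorem io_sb {k : ℕ} (hk : k ≤ n) : io A B k ∈ sb ρ W := by
  by_cases h : k ≤ p
  · exact fx_le_sb ρ W (pow_mem (mul_mem (E.fA k) (E.fB k (by omega))) 3)
  · exact E.sI k (by omega) (by omega)

theorem S_fx {i : ℕ} (hi : i < p) : S i ∈ fx ρ W := E.fS L (by omega)

omit L in
theorem S_sb {i : ℕ} (hi : p < i) (hi2 : i < n) : S i ∈ sb ρ W := E.sS i (by omega) (by omega)

omit L in
theorem fa_fx_ge {l : ℕ} (hl : p ≤ l) : ∀ d, l + d + 1 ≤ n → fa C S l d ∈ fx ρ W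
  | 0, _ => E.fC l
  | d + 1, h => fx_conj (S_sb E hp (by omega) (by omega)) (fa_fx_ge hl d (by omega))

include H in
/-- The front arcs fix `W`. -/
theorem fa_fx (l : ℕ) : ∀ d, l + d + 1 ≤ n → fa C S l d ∈ fx ρ W := by
  obtain ⟨e, he⟩ : ∃ e, e = p - l := ⟨_, rfl⟩
  induction e generalizing l with
  | zero => exact fa_fx_ge E hp (by omega)
  | succ e ih =>
    intro d hd
    cases d with
    | zero => exact E.fC l
    | succ d =>
      have h1 := ih (l + 1) (by omega) d (by omega)
      have h2 := S_fr_l L H l d (by omega)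
      rw [← h2]
      exact fx_conj' (fx_le_sb ρ W (S_fx L E hp (by omega))) h1

omit L in
include H in
theorem SS_sb (h : p < n) : S p * S p ∈ sb ρ W := by
  rw [H.R6 p (by omega)]
  have c : C p ∈ sb ρ W := fx_le_sb ρ W (E.fC p)
  have a1 : A p ∈ sb ρ W := fx_le_sb ρ W (E.fA p)
  have a2 : A (p + 1) ∈ sb ρ W := fx_le_sb ρ W (E.fA (p + 1))
  have i1 := io_sb E hp (k := p) (by omega)
  have i2 := io_sb E hp (k := p + 1) (by omega)
  exact mul_mem (mul_mem (mul_mem (mul_mem (mul_mem
    (mul_mem (mul_mem (mul_mem (mul_mem (inv_mem i1) (inv_mem i2)) c) i2) i1)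
    (mul_mem (mul_mem (inv_mem i1) c) i1)) (mul_mem (mul_mem (inv_mem i2) c) i2)) c)
    (pow_mem (inv_mem a1) 4)) (pow_mem (inv_mem a2) 4)

/-! ### The subspace `W' = r⁻¹ W`, `r` the rotation moving the last handle to the place `p` -/

omit L E hp in
theorem fx' {r x : Γ} (h : r * x * r⁻¹ ∈ fx ρ W) : x ∈ fx ρ (mv ρ r⁻¹ W) := by
  rw [mem_fx_mv, inv_inv]
  exact h

omit L E hp in
theorem sb' {r x : Γ} (h : r * x * r⁻¹ ∈ sb ρ W) : x ∈ sb ρ (mv ρ r⁻¹ W) := by
  rw [mem_sb_mv, inv_inv]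
  exact h

theorem A_fx' (k : ℕ) : A k ∈ fx ρ (mv ρ (rt S p m)⁻¹ W) := by
  apply fx'
  rw [conj_of_eq (rt_A L (by omega) k)]
  exact E.fA _

theorem B_fx' {k : ℕ} (hk : k < p ∨ k = n) : B k ∈ fx ρ (mv ρ (rt S p m)⁻¹ W) := by
  apply fx'
  rw [conj_of_eq (rt_B L (by omega) k)]
  rcases hk with hk | hk
  · rw [pr_fix m (by omega)]
    exact E.fB _ (by omega)
  · rw [hk, ← hp, pr_end]
    exact E.fB _ (by omega)

theorem io_sb' {k : ℕ} (hk : k ≤ n) : io A B k ∈ sb ρ (mv ρ (rt S p m)⁻¹ W) := by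
  apply sb'
  rw [conj_of_eq (rt_io L (by omega) k)]
  apply io_sb E hp
  have h1 := (Bb_lt (rt_mem (A := A) (B := B) (S := S) (N := n + 1) (i := p) m (by omega)) k).2
    (by omega : k < n + 1)
  change pr p m k < n + 1 at h1
  omega

include H in
theorem S_sb' {k : ℕ} (hk : p ≤ k) (hk2 : k + 1 < n) : S k ∈ sb ρ (mv ρ (rt S p m)⁻¹ W) := by
  apply sb'
  rw [conj_of_eq (rt_S L H hk m (by omega) (by omega))]
  exact S_sb E hp (by omega) (by omega)

include H in
/-- The front arcs ending at the last handle fix `W'`. -/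
theorem fa_fx' {l d : ℕ} (hl : l + d + 1 = n) : fa C S l d ∈ fx ρ (mv ρ (rt S p m)⁻¹ W) := by
  apply fx'
  by_cases h : l < p
  · have h1 := rt_fr_r (C := C) S l (p - l - 1) (i := p) (by omega) m
    rw [show p - l - 1 + m = d by omega] at h1
    rw [h1]
    exact fa_fx L H E hp l _ (by omega)
  · -- `l ≥ p`
    obtain ⟨e, rfl⟩ : ∃ e, l = p + e := ⟨l - p, by omega⟩
    obtain rfl : m = e + 1 + d := by omega
    have e1 : rt S p (e + 1 + d) = rt S p e * S (p + e) * rt S (p + e + 1) d := by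
      rw [rt_split S p (e + 1) d]
      rfl
    have h1 := rt_fr_r (C := C) S (p + e) 0 (i := p + e + 1) rfl d
    rw [Nat.zero_add] at h1
    have h2 := H.R7 (p + e) (by omega)
    have h3 := rt_fr_l L H p e 0 (by omega)
    rw [Nat.zero_add] at h3
    have h4 := conj_of_eq (rt_io L (i := p) (d := e) (by omega) (p + e))
    have h5 := conj_of_eq (rt_io L (i := p) (d := e) (by omega) (p + e + 1))
    rw [pr_end] at h4
    rw [pr_fix e (by omega)] at h5
    have h6 : rt S p (e + 1 + d) * fa C S (p + e) d * (rt S p (e + 1 + d))⁻¹ =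
        (io A B p * io A B (p + e + 1))⁻¹ * fa C S p e * (io A B p * io A B (p + e + 1)) := by
      rw [e1]
      calc rt S p e * S (p + e) * rt S (p + e + 1) d * fa C S (p + e) d *
          (rt S p e * S (p + e) * rt S (p + e + 1) d)⁻¹ =
          rt S p e * (S (p + e) * (rt S (p + e + 1) d * fa C S (p + e) d *
            (rt S (p + e + 1) d)⁻¹) * (S (p + e))⁻¹) * (rt S p e)⁻¹ := by group
        _ = rt S p e * ((io A B (p + e) * io A B (p + e + 1))⁻¹ * C (p + e) *
            (io A B (p + e) * io A B (p + e + 1))) * (rt S p e)⁻¹ := by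
          rw [h1, ← h2]; rfl
        _ = (rt S p e * io A B (p + e) * (rt S p e)⁻¹ *
            (rt S p e * io A B (p + e + 1) * (rt S p e)⁻¹))⁻¹ *
            (rt S p e * C (p + e) * (rt S p e)⁻¹) *
            (rt S p e * io A B (p + e) * (rt S p e)⁻¹ *
              (rt S p e * io A B (p + e + 1) * (rt S p e)⁻¹)) := by group
        _ = _ := by
          rw [h4, h5]
          congr 1
          congr 1
    rw [h6]
    apply fx_conj
    · exact mul_mem (io_sb E hp (by omega)) (io_sb E hp (by omega))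
    · exact fa_fx L H E hp p e (by omega)

end W

end Pool.MP_59b15d_al.H60E
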