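import Mathlib
import Pool.Agent.H.MP_59b15d_al.h11d.Dual
import Pool.Agent.H.MP_59b15d_al.h60e.Pu
import Pool.Agent.H.MP_59b15d_al.h60e.Span
import Pool.Agent.H.MP_59b15d_al.h60e.Wp

set_option autoImplicit false

/-!
# Exact families vanish
-/

namespace Pool.MP_59b15d_al.H60E

open Module Pool.MP_59b15d_al.H95E Pool.MP_59b15d_al.H93E Pool.MP_59b15d_al.H11D

variable {F V Γ : Type*} [Field F] [AddCommGroup V] [Module F V] [Group Γ]
  {ρ : Γ →* Module.End F V} {A B C S XA XB : ℕ → Γ}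

section inst

variable {n m p : ℕ} {W : Submodule F V}
  (L : Lk (n + 1) A B C S) (H : Hb (n + 1) A B C S) (P : Pu n A B C S XA XB)
  (E : Ex ρ A B C S (n + 1) m W) (hp : p + m = n)
include L H P E hp

theorem XQ_fx' {l : ℕ} (hl : l < n) : XQ XA XB l ∈ fx ρ (mv ρ (rt S p m)⁻¹ W) := by
  obtain ⟨j, hj⟩ := P.XQ_eq L H (n - 1 - l) l (by omega)
  rw [hj]
  exact mul_mem (mul_mem (A_fx' L E hp l) (inv_mem (fa_fx' L H E hp (by omega))))
    (zpow_mem (A_fx' L E hp n) j)

theorem XA_fx' {l : ℕ} (hl : l < n) : XA l ∈ fx ρ (mv ρ (rt S p m)⁻¹ W) := by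
  obtain ⟨j, hj⟩ := P.ioQ l hl
  have h1 : XA l = io A B l * XQ XA XB l * (io A B l)⁻¹ * (A n ^ j)⁻¹ := by
    rw [io, hj]; group
  rw [h1]
  exact mul_mem (fx_conj' (io_sb' L E hp (by omega)) (XQ_fx' L H P E hp hl))
    (inv_mem (zpow_mem (A_fx' L E hp n) j))

theorem XB_fx' {l : ℕ} (hl : l < p) : XB l ∈ fx ρ (mv ρ (rt S p m)⁻¹ W) := by
  obtain ⟨j, hj⟩ := P.XB_eq (l := l) (by omega)
  have h1 := XA_fx' L H P E hp (l := l) (by omega)
  have h2 := B_fx' L E hp (Or.inl hl)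
  rw [hj]
  exact mul_mem (mul_mem (mul_mem (mul_mem (inv_mem h1) h2) h1) (inv_mem h2))
    (zpow_mem (A_fx' L E hp n) j)

/-- The push around `b p`. -/
theorem slot_p {m' : ℕ} (hm : m = m' + 1)
    (EV : ∀ W' : Submodule F V, Ex ρ A B C S (n + 1) m' W' → W' = ⊥) :
    ∀ v ∈ mv ρ (rt S p m)⁻¹ W, ρ (XB p) v - v ∈ W := by
  have hXA := XA_fx' L H P E hp (l := p) (by omega)
  subst hm
  have h0 := E.zero L (q := p + 1) (by omega) EV
  have X := E.cfg L (p := p) (by omega) h0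
  have h5 := E.E5_eq_S L (p := p) (by omega) h0
  have hSS := SS_sb H E hp (by omega)
  have hpn : n = p + 1 + m' := by omega
  have hRs : rt S p (m' + 1) = S p * rt S (p + 1) m' := by
    rw [add_comm, rt_split S p 1 m']
    change 1 * S (p + 0) * _ = _
    rw [one_mul, Nat.add_zero]
  have hRsb : rt S (p + 1) m' ∈ sb ρ W := rt_mem_of m' fun j h1 h2 => S_sb E hp (by omega) (by omega)
  have hRA : Commute (rt S (p + 1) m') (A p) :=
    rt_comm_of m' fun j h1 h2 => L.SAo j p (by omega) (by omega)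
  have hRB : Commute (rt S (p + 1) m') (B p) :=
    rt_comm_of m' fun j h1 h2 => L.SBo j p (by omega) (by omega)
  have hRn : rt S (p + 1) m' * A n = A (p + 1) * rt S (p + 1) m' := by
    have h1 := rt_A L (i := p + 1) (d := m') (by omega) n
    rw [show pr (p + 1) m' n = p + 1 by rw [hpn]; exact pr_end m'] at h1
    exact h1
  have hfa : rt S (p + 1) m' * fa C S p m' * (rt S (p + 1) m')⁻¹ = C p := by
    have h1 := rt_fr_r (C := C) S p 0 (i := p + 1) rfl m'
    rw [Nat.zero_add] at h1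
    exact h1
  generalize rt S (p + 1) m' = R at *
  obtain ⟨j, hj⟩ := P.BAQ p (by omega)
  obtain ⟨j', hj'⟩ := P.XQ_eq L H m' p (by omega)
  have hnBA : Commute (A n) (B p * A p) :=
    (L.AB n p (by omega)).mul_right (L.AA n p)
  have hpBA : Commute (A (p + 1)) (B p * A p) :=
    (L.AB (p + 1) p (by omega)).mul_right (L.AA (p + 1) p)
  have hRBA : Commute R (B p * A p) := hRB.mul_right hRA
  have hBAfx : B p * A p ∈ fx ρ W := mul_mem (E.fB p (by omega)) (E.fA p)
  -- the vectors of `W'`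
  intro v hv
  have hW' : mv ρ (rt S p (m' + 1))⁻¹ W = mv ρ (R⁻¹ * (B p * A p))
      (E4 ρ (A (p + 1)) (B (p + 1)) (C p) (B p) W) := by
    rw [hRs]
    have e1 : (S p * R)⁻¹ = R⁻¹ * S p * (S p * S p)⁻¹ := by group
    rw [e1, mv_of_sb (inv_mem hSS), mv_mul, ← h5, E5, ← mv_mul]
  have hv0 := hv
  rw [hW'] at hv
  obtain ⟨y, hy, rfl⟩ := hv
  have hcl := (E.clean L (p := p) (by omega) EV y (by rw [← Cfg.E4_eq]; exact hy)).1
  have hz1 : ρ (C p * (A p)⁻¹) y = y + (ρ (C p * (A p)⁻¹) y - y) := by abel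
  generalize ρ (C p * (A p)⁻¹) y - y = w at *
  -- the group identity
  have e2 : XB p = A n ^ j * (B p * A p) * (XQ XA XB p)⁻¹ * (B p * A p)⁻¹ * (XA p)⁻¹ := by
    calc XB p = (XA p * ((XA p)⁻¹ * (XB p)⁻¹ * A n ^ j) * (A n ^ j)⁻¹)⁻¹ := by group
      _ = _ := by rw [← hj]; group
  have hRj : ∀ i : ℤ, R * A n ^ i = A (p + 1) ^ i * R := fun i =>
    ((SemiconjBy.zpow_right (show SemiconjBy R (A n) (A (p + 1)) from hRn) i)).eq
  have hRj' : ∀ i : ℤ, A n ^ i * R⁻¹ = R⁻¹ * A (p + 1) ^ i := by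
    intro i
    rw [eq_inv_mul_iff_mul_eq, ← mul_assoc, hRj i, mul_inv_cancel_right]
  have e3 : (XQ XA XB p)⁻¹ * R⁻¹ = R⁻¹ * (A (p + 1) ^ (-j') * (C p * (A p)⁻¹)) := by
    rw [hj']
    calc (A p * (fa C S p m')⁻¹ * A n ^ j')⁻¹ * R⁻¹ =
        A n ^ (-j') * R⁻¹ * (R * fa C S p m' * R⁻¹) * (R * (A p)⁻¹) * R⁻¹ := by group
      _ = R⁻¹ * A (p + 1) ^ (-j') * C p * ((A p)⁻¹ * R) * R⁻¹ := by
        rw [hRj', hfa, hRA.inv_right.eq]
      _ = _ := by group
  have e4 : A n ^ j * (B p * A p) * (XQ XA XB p)⁻¹ * (B p * A p)⁻¹ * (R⁻¹ * (B p * A p)) =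
      R⁻¹ * (B p * A p) * (A (p + 1) ^ j * A (p + 1) ^ (-j')) * (C p * (A p)⁻¹) := by
    calc A n ^ j * (B p * A p) * (XQ XA XB p)⁻¹ * (B p * A p)⁻¹ * (R⁻¹ * (B p * A p)) =
        A n ^ j * (B p * A p) * (XQ XA XB p)⁻¹ * (B p * A p)⁻¹ * ((B p * A p) * R⁻¹) := by
          rw [hRBA.inv_left.eq]
      _ = A n ^ j * (B p * A p) * ((XQ XA XB p)⁻¹ * R⁻¹) := by group
      _ = A n ^ j * ((B p * A p) * R⁻¹) * (A (p + 1) ^ (-j') * (C p * (A p)⁻¹)) := by
          rw [e3]; group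
      _ = A n ^ j * R⁻¹ * (B p * A p) * (A (p + 1) ^ (-j') * (C p * (A p)⁻¹)) := by
          rw [← hRBA.inv_left.eq]; group
      _ = R⁻¹ * (A (p + 1) ^ j * (B p * A p)) * (A (p + 1) ^ (-j') * (C p * (A p)⁻¹)) := by
          rw [hRj']; group
      _ = _ := by rw [(hpBA.zpow_left j).eq]; group
  have hv1 : ρ (XA p)⁻¹ (ρ (R⁻¹ * (B p * A p)) y) = ρ (R⁻¹ * (B p * A p)) y :=
    inv_mem hXA _ hv0
  have ha : A (p + 1) ^ j * A (p + 1) ^ (-j') ∈
      fx ρ (E4 ρ (A (p + 1)) (B (p + 1)) (C p) (B p) W) :=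
    mul_mem (zpow_mem X.f14 j) (zpow_mem X.f14 (-j'))
  have ha' : A (p + 1) ^ j * A (p + 1) ^ (-j') ∈ fx ρ W :=
    mul_mem (zpow_mem (E.fA _) j) (zpow_mem (E.fA _) (-j'))
  have h7 : ρ (XB p) (ρ (R⁻¹ * (B p * A p)) y) = ρ (R⁻¹ * (B p * A p)) y +
      ρ (R⁻¹ * (B p * A p)) w := by
    rw [e2, rho_mul, hv1, ← rho_mul, e4, rho_mul, rho_mul, hz1, map_add, ha _ hy,
      ha' _ hcl, map_add]
  rw [h7, add_sub_cancel_left]
  exact sb_apply (mul_mem (inv_mem hRsb) (fx_le_sb ρ W hBAfx)) hcl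

/-- The pushes around the curves of `W'`. -/
theorem slot_all {m' : ℕ} (hm : m = m' + 1)
    (EV : ∀ W' : Submodule F V, Ex ρ A B C S (n + 1) m' W' → W' = ⊥) : ∀ e, p + e < n →
    ∃ q ∈ Bb A B S (n + 1), (Finset.Icc (p + 1) n).map q.2.toEmbedding =
      insert n ((Finset.Ico p n).erase (p + e)) ∧
    ∀ v ∈ mv ρ (rt S p m)⁻¹ W, ρ (XB (p + e)) v - v ∈ mv ρ q.1 W := by
  intro e
  induction e with
  | zero =>
    intro _
    refine ⟨1, one_mem _, ?_, ?_⟩
    · change (Finset.Icc (p + 1) n).map (1 : Equiv.Perm ℕ).toEmbedding = _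
      rw [map_one_perm]
      ext x
      simp only [Finset.mem_Icc, Finset.mem_insert, Finset.mem_erase, Finset.mem_Ico]
      omega
    · intro v hv
      change _ ∈ mv ρ 1 W
      rw [mv_one]
      exact slot_p L H P E hp hm EV v hv
  | succ e ih =>
    intro he
    obtain ⟨q, hq, h1, h2⟩ := ih (by omega)
    obtain ⟨j, hj⟩ := P.SXB (p + e) (by omega)
    have hS := S_sb' L H E hp (k := p + e) (by omega) (by omega)
    have hmem : (S (p + e), Equiv.swap (p + e) (p + e + 1)) ∈ Bb A B S (n + 1) :=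
      S_mem_Bb (by omega)
    refine ⟨(S (p + e), Equiv.swap (p + e) (p + e + 1))⁻¹ * q, mul_mem (inv_mem hmem) hq, ?_, ?_⟩
    · have e1 : (Finset.Icc (p + 1) n).map
          ((S (p + e), Equiv.swap (p + e) (p + e + 1))⁻¹ * q).2.toEmbedding =
          ((Finset.Icc (p + 1) n).map q.2.toEmbedding).map
            (Equiv.swap (p + e) (p + e + 1)).toEmbedding := by
        rw [Finset.map_map]
        have e0 : ((S (p + e), Equiv.swap (p + e) (p + e + 1))⁻¹ * q).2 =
            Equiv.swap (p + e) (p + e + 1) * q.2 := by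
          change (Equiv.swap (p + e) (p + e + 1))⁻¹ * q.2 = _
          rw [Equiv.swap_inv]
        rw [e0]
        rfl
      rw [e1, h1]
      ext x
      rw [Finset.mem_map_equiv, Equiv.symm_swap]
      simp only [Finset.mem_insert, Finset.mem_erase, Finset.mem_Ico]
      by_cases hx1 : x = p + e
      · rw [hx1, Equiv.swap_apply_left]
        omega
      · by_cases hx2 : x = p + e + 1
        · rw [hx2, Equiv.swap_apply_right]
          omega
        · rw [Equiv.swap_apply_of_ne_of_ne hx1 hx2]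
          omega
    · intro v hv
      have hu : ρ (S (p + e)) v ∈ mv ρ (rt S p m)⁻¹ W := sb_apply hS hv
      have h3 := h2 _ hu
      have h4 : A n ^ j ∈ fx ρ (mv ρ (rt S p m)⁻¹ W) := zpow_mem (A_fx' L E hp n) j
      have h5 : XB (p + (e + 1)) = (S (p + e))⁻¹ * (XB (p + e) * A n ^ j) * S (p + e) := by
        rw [← hj]
        change XB (p + e + 1) = _
        group
      have h6 : ρ (XB (p + (e + 1))) v - v =
          ρ (S (p + e))⁻¹ (ρ (XB (p + e)) (ρ (S (p + e)) v) - ρ (S (p + e)) v) := by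
        rw [h5, rho_mul, rho_mul, rho_mul, h4 _ hu, map_sub, rho_inv]
      rw [h6]
      change _ ∈ mv ρ ((S (p + e))⁻¹ * q.1) W
      rw [mv_mul]
      exact mv_mem _ h3

omit H P in
/-- The rotations. -/
theorem cover_all {i : ℕ} (hi : i ≤ p) : ∃ q ∈ Bb A B S (n + 1), q.2 n = i ∧
    (Finset.Ico p n).map q.2.toEmbedding = Finset.Icc (p + 1) n ∧
    W ≤ mv ρ q.1 (mv ρ (rt S p m)⁻¹ W) := by
  refine ⟨(rt S i (n - i), pr i (n - i)), rt_mem _ (by omega), ?_, ?_, ?_⟩
  · change pr i (n - i) n = i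
    have h1 := pr_end (i := i) (n - i)
    rwa [show i + (n - i) = n by omega] at h1
  · ext x
    rw [Finset.mem_map]
    constructor
    · rintro ⟨k, hk, rfl⟩
      rw [Finset.mem_Ico] at hk
      change pr i (n - i) k ∈ _
      rw [pr_mid _ (by omega) (by omega), Finset.mem_Icc]
      omega
    · intro hx
      rw [Finset.mem_Icc] at hx
      refine ⟨x - 1, Finset.mem_Ico.2 (by omega), ?_⟩
      change pr i (n - i) (x - 1) = x
      rw [pr_mid _ (by omega) (by omega)]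
      omega
  · change W ≤ mv ρ (rt S i (n - i)) (mv ρ (rt S p m)⁻¹ W)
    have e1 : rt S i (n - i) = rt S i (p - i) * rt S p m := by
      have h1 := rt_split S i (p - i) m
      rwa [show p - i + m = n - i by omega, show i + (p - i) = p by omega] at h1
    have hfx : rt S i (p - i) ∈ fx ρ W := rt_mem_of _ fun j h1 h2 => S_fx L E hp (by omega)
    rw [← mv_mul, e1, mul_inv_cancel_right, mem_sb.1 (fx_le_sb ρ W hfx)]

end inst

theorem DD_comm {n : ℕ} {x : Γ} (hA : ∀ k, k < n → Commute (A k) x)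
    (hB : ∀ k, k < n → Commute (io A B k) x) (hF : ∀ l d, l + d + 1 < n → Commute (fa C S l d) x) :
    ∀ y ∈ DD A B C S n, Commute y x := by
  have h1 : DD A B C S n ≤ Subgroup.centralizer {x} := by
    rw [DD, Subgroup.closure_le]
    intro y hy
    rw [SetLike.mem_coe, Subgroup.mem_centralizer_singleton_iff]
    rcases hy with ⟨k, h1, rfl | rfl⟩ | ⟨l, d, h1, rfl⟩
    · exact (hA k h1).eq
    · exact (hB k h1).eq
    · exact (hF l d h1).eq
  intro y hy
  exact Subgroup.mem_centralizer_singleton_iff.1 (h1 hy)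

/-- The data of the span lemma. -/
theorem sd {n m p : ℕ} {W : Submodule F V} (L : Lk (n + 1) A B C S) (H : Hb (n + 1) A B C S)
    (P : Pu n A B C S XA XB) (E : Ex ρ A B C S (n + 1) m W) (hp : p + m = n)
    (EV : ∀ m', m = m' + 1 →
      ∀ W' : Submodule F V, Ex ρ A B C S (n + 1) m' W' → W' = ⊥) :
    SD ρ n A B (DD A B C S (n + 1)) (DD A B C S n) (Bb A B S (n + 1)) (Bb A B S n)
      (XS n XA XB) XB (Finset.Icc (p + 1) n) (Finset.Ico p n) W (mv ρ (rt S p m)⁻¹ W) where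
  le_iff := fun q hq k => by
    have h1 := Bb_lt hq k
    rwa [Nat.lt_succ_iff, Nat.lt_succ_iff] at h1
  conjA := fun q hq k _ => Bb_A L le_rfl hq k
  conjB := fun q hq k _ => Bb_B L le_rfl hq k
  conjD := fun q hq d hd => (Bb_D L H le_rfl le_rfl hq d).2 hd
  Br'_le := Bb_mono (Nat.le_succ n)
  last := fun q hq => Bb_fix q hq n le_rfl
  D'_le := DD_mono (Nat.le_succ n)
  X_le := P.XS_sub L H
  A_D := A_mem_DD (Nat.lt_succ_self n)
  I_D := io_mem_DD (Nat.lt_succ_self n)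
  D_le := P.DD_le L H
  Xb_mem := fun l hl => by
    obtain ⟨j, hj⟩ := P.XB_eq hl
    have hD : ∀ x ∈ DD A B C S (n + 1), x ∈ Subgroup.closure
      ((DD A B C S (n + 1) : Set Γ) ∪ {B l}) := fun x hx => Subgroup.subset_closure (Or.inl hx)
    have hb : B l ∈ Subgroup.closure ((DD A B C S (n + 1) : Set Γ) ∪ {B l}) :=
      Subgroup.subset_closure (Or.inr rfl)
    have h1 := hD _ (P.XA_mem L H hl)
    rw [hj]
    exact mul_mem (mul_mem (mul_mem (mul_mem (inv_mem h1) hb) h1) (inv_mem hb))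
      (zpow_mem (hD _ (A_mem_DD (Nat.lt_succ_self n))) j)
  commA := DD_comm (fun k _ => L.AA k n) (fun k hk => io_comm_A L k n (by omega))
    fun l d h => (A_fr L l d (by omega) n).symm
  commB := DD_comm (fun k hk => L.AB k n (by omega)) (fun k hk => io_comm_B L k n (by omega))
    fun l d h => (B_fr L l d (by omega) n (by omega) (by omega)).symm
  commAB := fun l hl => (L.AB n l (by omega)).symm
  commBB := fun l _ => L.BB l n
  normD := fun x hx K y hy => (P.DD_nm K hx y (Subgroup.subset_closure hy)).2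
  normB := fun k hk K hkK y hy =>
    ⟨(P.pB k hk K hkK y (Subgroup.subset_closure hy)).2,
      (P.pB k hk K hkK y (Subgroup.subset_closure hy)).1⟩
  normBr := fun q hq K y hy => P.Bb_PG q hq K y (Subgroup.subset_closure hy)
  J_le := fun k hk => (Finset.mem_Icc.1 hk).2
  J'_lt := fun k hk => (Finset.mem_Ico.1 hk).2
  fA := A_fx' L E hp n
  fB := B_fx' L E hp (Or.inr rfl)
  fX := by
    rintro x ⟨l, hl, rfl | rfl⟩
    · exact XA_fx' L H P E hp hl
    · exact XQ_fx' L H P E hp hl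
  fXb := fun l hl hlJ => XB_fx' L H P E hp (by
    by_contra h
    exact hlJ (Finset.mem_Ico.2 ⟨by omega, hl⟩))
  slot := fun l hl => by
    rw [Finset.mem_Ico] at hl
    obtain ⟨m', hm⟩ : ∃ m', m = m' + 1 := ⟨m - 1, by omega⟩
    obtain ⟨e, rfl⟩ : ∃ e, l = p + e := ⟨l - p, by omega⟩
    exact slot_all L H P E hp hm (EV m' hm) e hl.2
  cover := fun i hi hiJ => cover_all L E hp (by
    by_contra h
    exact hiJ (Finset.mem_Icc.2 ⟨by omega, hi⟩))

/-- Each factor of the product can be written on the right. -/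
theorem np_factor (hc : ∀ i j, Commute (A i) (A j)) {i : ℕ} :
    ∀ T : List ℕ, i ∈ T → ∃ Ψ : Module.End F V, np ρ (T.map A) = Ψ * nn ρ (A i)
  | [], h => absurd h List.not_mem_nil
  | x :: T, h => by
    by_cases hx : i = x
    · subst hx
      refine ⟨np ρ (T.map A), ?_⟩
      ext v
      rw [List.map_cons, np_cons, nn_np ρ (by
        intro y hy
        obtain ⟨z, _, rfl⟩ := List.mem_map.1 hy
        exact hc _ _)]
      rfl
    · obtain ⟨Ψ, hΨ⟩ := np_factor hc T ((List.mem_cons.1 h).resolve_left hx)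
      refine ⟨nn ρ (A x) * Ψ, ?_⟩
      ext v
      rw [List.map_cons, np_cons, hΨ]
      rfl

/-- The step. -/
theorem EV_step {n : ℕ} (L : Lk (n + 1) A B C S) (H : Hb (n + 1) A B C S)
    (P : Pu n A B C S XA XB)
    (hgen : ∀ K : Subgroup Γ, (∀ i, i < n + 1 → A i ∈ K) → (∀ i, i < n + 1 → B i ∈ K) →
      (∀ i, i + 1 < n + 1 → C i ∈ K) → K = ⊤)
    (hirr : ∀ U : Submodule F V, (∀ g, ∀ u ∈ U, ρ g u ∈ U) → U = ⊥ ∨ U = ⊤) {m : ℕ}
    (hEV : ∀ m', m = m' + 1 → ∀ W' : Submodule F V, Ex ρ A B C S (n + 1) m' W' → W' = ⊥)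
    {T : List ℕ} (hT : T.Nodup) (hTn : ∀ i ∈ T, i < n + 1) (hTl : T.length = m + 1)
    (hne : np ρ (T.map A) ≠ 0) {W : Submodule F V} (E : Ex ρ A B C S (n + 1) m W) : W = ⊥ := by
  have hcard : T.toFinset.card = m + 1 := by rw [List.toFinset_card_of_nodup hT, hTl]
  have hmn : m ≤ n := by
    have h1 : T.toFinset ⊆ Finset.range (n + 1) := fun i hi =>
      Finset.mem_range.2 (hTn i (List.mem_toFinset.1 hi))
    have h2 := Finset.card_le_card h1
    rw [hcard, Finset.card_range] at h2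
    omega
  obtain ⟨p, hp⟩ : ∃ p, p + m = n := ⟨n - m, by omega⟩
  have D := sd L H P E hp hEV
  have hcA : ∀ q ∈ Bb A B S n, Commute q.1 (A n) := fun q hq => by
    have h1 := Bb_A L (Nat.le_succ n) hq n
    rw [Bb_fix q hq n le_rfl] at h1
    exact h1
  have hcB : ∀ q ∈ Bb A B S n, Commute q.1 (B n) := fun q hq => by
    have h1 := Bb_B L (Nat.le_succ n) hq n
    rw [Bb_fix q hq n le_rfl] at h1
    exact h1
  have hG : SD.GG n B (DD A B C S (n + 1)) ∅ = ⊤ := by
    have hD : ∀ x ∈ DD A B C S (n + 1), x ∈ SD.GG n B (DD A B C S (n + 1)) ∅ := fun x hx =>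
      Subgroup.subset_closure (Or.inl hx)
    apply hgen
    · intro i hi
      exact hD _ (A_mem_DD hi)
    · intro i hi
      exact Subgroup.subset_closure (Or.inr ⟨i, by omega, Finset.notMem_empty i, rfl⟩)
    · intro i hi
      exact hD _ (fr_mem_DD (l := i) (d := 0) (by omega))
  have hk : ∀ (g : Γ) (v : V), v ∈ W → np ρ (T.map A) (ρ g v) = 0 := fun g v hv =>
    D.kill hcA hcB T.toFinset (by rw [hcard, Nat.card_Icc]; omega)
      (fun k hk => Nat.lt_succ_iff.1 (hTn k (List.mem_toFinset.1 hk)))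
      (np ρ (T.map A)) (fun i hi => np_factor L.AA T (List.mem_toFinset.1 hi))
      (by rw [hG]; exact Subgroup.mem_top g) hv
  by_contra hW
  let U : Submodule F V := ⨆ g : Γ, mv ρ g W
  have hU : ∀ g, ∀ u ∈ U, ρ g u ∈ U := by
    intro g u hu
    have h1 : U ≤ U.comap (ρ g) := by
      refine iSup_le fun k => ?_
      rintro _ ⟨w, hw, rfl⟩
      have h2 : ρ (g * k) w ∈ U := (le_iSup (fun g : Γ => mv ρ g W) (g * k)) (mv_mem _ hw)
      rw [rho_mul] at h2
      exact h2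
    exact h1 hu
  have hWU : W ≤ U := by
    have h1 := le_iSup (fun g : Γ => mv ρ g W) 1
    rwa [mv_one] at h1
  rcases hirr U hU with h1 | h1
  · exact hW (le_bot_iff.1 (h1 ▸ hWU))
  · apply hne
    have h2 : U ≤ LinearMap.ker (np ρ (T.map A)) := by
      refine iSup_le fun k => ?_
      rintro _ ⟨w, hw, rfl⟩
      exact LinearMap.mem_ker.2 (hk k w hw)
    rw [h1, top_le_iff, LinearMap.ker_eq_top] at h2
    exact h2

/-- **Exact families vanish** if the representation is irreducible and the product of `m + 1` of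
the operators `ρ (A i) - 1` is not zero. -/
theorem EV {n : ℕ} (L : Lk (n + 1) A B C S) (H : Hb (n + 1) A B C S)
    (P : Pu n A B C S XA XB)
    (hgen : ∀ K : Subgroup Γ, (∀ i, i < n + 1 → A i ∈ K) → (∀ i, i < n + 1 → B i ∈ K) →
      (∀ i, i + 1 < n + 1 → C i ∈ K) → K = ⊤)
    (hirr : ∀ U : Submodule F V, (∀ g, ∀ u ∈ U, ρ g u ∈ U) → U = ⊥ ∨ U = ⊤) :
    ∀ (m : ℕ) (T : List ℕ), T.Nodup → (∀ i ∈ T, i < n + 1) → T.length = m + 1 →
      np ρ (T.map A) ≠ 0 → ∀ W : Submodule F V, Ex ρ A B C S (n + 1) m W → W = ⊥ := by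
  intro m
  induction m with
  | zero =>
    intro T hT hTn hTl hne W E
    exact EV_step L H P hgen hirr (fun m' hm' => by omega) hT hTn hTl hne E
  | succ m ih =>
    intro T hT hTn hTl hne W E
    refine EV_step L H P hgen hirr (fun m' hm' => ?_) hT hTn hTl hne E
    obtain rfl : m = m' := by omega
    cases T with
    | nil =>
      rw [List.length_nil] at hTl
      omega
    | cons x T =>
      refine ih T (List.nodup_cons.1 hT).2 (fun i hi => hTn i (List.mem_cons_of_mem x hi))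
        (by rw [List.length_cons] at hTl; omega) ?_
      intro h0
      apply hne
      ext v
      rw [List.map_cons, np_cons, h0]
      exact map_zero _

end Pool.MP_59b15d_al.H60E
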