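import Mathlib
import Pool.Agent.H.MP_59b15d_al.deg.Alpha
import Pool.Agent.H.MP_59b15d_al.deg.Sw
import Pool.Agent.H.MP_59b15d_al.h93e.Lk

set_option autoImplicit false
set_option linter.unusedSimpArgs false
set_option linter.unusedTactic false
set_option linter.unreachableTactic false

/-!
# The relations of the standard generators: the instance
-/

namespace Pool.MP_59b15d_al.H60E.LkI

open Pool.MP_59b15d_al.H24T Pool.MP_59b15d_al.H76R Pool.MP_59b15d_al.H73E
open Pool.MP_59b15d_al.H60G Pool.MP_59b15d_al.H40L Pool.MP_59b15d_al.H93E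
open Pool.Agent.H.MP_59b15d_al.Deg

section

variable {m : ℕ} {G : Type*} [Group G] {a b : Fin m → G} (h : IsSurf a b)
  {i j : Fin m} (hij : (j : ℕ) = i + 1)

/-- A factor of the half twist of the chain. -/
noncomputable def K1 : MulAut G :=
  CC h i j hij * TB h i * CC h i j hij

theorem K1_ai : K1 h hij (a i) =
    a i * b i * (a i)⁻¹ * (b i)⁻¹ * a j * b i := by
  have n1 := ne_of_succ hij
  have e : cv a b i j = b i * (a i)⁻¹ * (b i)⁻¹ * a j := rfl
  rw [K1]
  simp only [MulAut.mul_apply, map_mul, map_inv, TAi_a, TAi_b, TAi_b_ne h n1, TAi_b_ne h n1.symm, TB_a, TB_b, TB_a_ne h n1, TB_a_ne h n1.symm, CC_ai, CC_bi, CC_aj, CC_bj, CC_cv, e]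
  try group

theorem K1_bi : K1 h hij (b i) =
    (a i)⁻¹ * (b i)⁻¹ * a j * b i := by
  have n1 := ne_of_succ hij
  have e : cv a b i j = b i * (a i)⁻¹ * (b i)⁻¹ * a j := rfl
  rw [K1]
  simp only [MulAut.mul_apply, map_mul, map_inv, TAi_a, TAi_b, TAi_b_ne h n1, TAi_b_ne h n1.symm, TB_a, TB_b, TB_a_ne h n1, TB_a_ne h n1.symm, CC_ai, CC_bi, CC_aj, CC_bj, CC_cv, e]
  try group

theorem K1_aj : K1 h hij (a j) =
    (a i)⁻¹ * (b i)⁻¹ * a j * b i * a i := by
  have n1 := ne_of_succ hij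
  have e : cv a b i j = b i * (a i)⁻¹ * (b i)⁻¹ * a j := rfl
  rw [K1]
  simp only [MulAut.mul_apply, map_mul, map_inv, TAi_a, TAi_b, TAi_b_ne h n1, TAi_b_ne h n1.symm, TB_a, TB_b, TB_a_ne h n1, TB_a_ne h n1.symm, CC_ai, CC_bi, CC_aj, CC_bj, CC_cv, e]
  try group

theorem K1_bj : K1 h hij (b j) =
    b j * (a j)⁻¹ * b i * a i := by
  have n1 := ne_of_succ hij
  have e : cv a b i j = b i * (a i)⁻¹ * (b i)⁻¹ * a j := rfl
  rw [K1]
  simp only [MulAut.mul_apply, map_mul, map_inv, TAi_a, TAi_b, TAi_b_ne h n1, TAi_b_ne h n1.symm, TB_a, TB_b, TB_a_ne h n1, TB_a_ne h n1.symm, CC_ai, CC_bi, CC_aj, CC_bj, CC_cv, e]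
  try group

theorem K1_a_ne {l : Fin m} (h1 : l ≠ i) (h2 : l ≠ j) : K1 h hij (a l) = a l := by
  rw [K1]
  simp only [MulAut.mul_apply, TAi_a, TB_a_ne h h1, TB_a_ne h h2, CC_a_ne h hij h1 h2]

theorem K1_b_ne {l : Fin m} (h1 : l ≠ i) (h2 : l ≠ j) : K1 h hij (b l) = b l := by
  rw [K1]
  simp only [MulAut.mul_apply, TAi_b_ne h h1, TAi_b_ne h h2, TB_b, CC_b_ne h hij h1 h2]

/-- A factor of the half twist of the chain. -/
noncomputable def K2 : MulAut G :=
  TB h i * (TA h i)⁻¹ * K1 h hij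

theorem K2_ai : K2 h hij (a i) =
    a i * b i * (a i)⁻¹ * (b i)⁻¹ * a j * (a i)⁻¹ := by
  have n1 := ne_of_succ hij
  have e : cv a b i j = b i * (a i)⁻¹ * (b i)⁻¹ * a j := rfl
  rw [K2]
  simp only [MulAut.mul_apply, map_mul, map_inv, K1_ai h hij, TAi_a, TAi_b, TAi_b_ne h n1, TAi_b_ne h n1.symm, TB_a, TB_b, TB_a_ne h n1, TB_a_ne h n1.symm, CC_ai, CC_bi, CC_aj, CC_bj, CC_cv, e]
  try group

theorem K2_bi : K2 h hij (b i) =
    (b i)⁻¹ * a j * (a i)⁻¹ := by
  have n1 := ne_of_succ hij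
  have e : cv a b i j = b i * (a i)⁻¹ * (b i)⁻¹ * a j := rfl
  rw [K2]
  simp only [MulAut.mul_apply, map_mul, map_inv, K1_bi h hij, TAi_a, TAi_b, TAi_b_ne h n1, TAi_b_ne h n1.symm, TB_a, TB_b, TB_a_ne h n1, TB_a_ne h n1.symm, CC_ai, CC_bi, CC_aj, CC_bj, CC_cv, e]
  try group

theorem K2_aj : K2 h hij (a j) =
    (b i)⁻¹ * a j * b i := by
  have n1 := ne_of_succ hij
  have e : cv a b i j = b i * (a i)⁻¹ * (b i)⁻¹ * a j := rfl
  rw [K2]
  simp only [MulAut.mul_apply, map_mul, map_inv, K1_aj h hij, TAi_a, TAi_b, TAi_b_ne h n1, TAi_b_ne h n1.symm, TB_a, TB_b, TB_a_ne h n1, TB_a_ne h n1.symm, CC_ai, CC_bi, CC_aj, CC_bj, CC_cv, e]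
  try group

theorem K2_bj : K2 h hij (b j) =
    b j * (a j)⁻¹ * b i := by
  have n1 := ne_of_succ hij
  have e : cv a b i j = b i * (a i)⁻¹ * (b i)⁻¹ * a j := rfl
  rw [K2]
  simp only [MulAut.mul_apply, map_mul, map_inv, K1_bj h hij, TAi_a, TAi_b, TAi_b_ne h n1, TAi_b_ne h n1.symm, TB_a, TB_b, TB_a_ne h n1, TB_a_ne h n1.symm, CC_ai, CC_bi, CC_aj, CC_bj, CC_cv, e]
  try group

theorem K2_a_ne {l : Fin m} (h1 : l ≠ i) (h2 : l ≠ j) : K2 h hij (a l) = a l := by
  rw [K2]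
  simp only [MulAut.mul_apply, K1_a_ne h hij h1 h2, TAi_a, TB_a_ne h h1, TB_a_ne h h2, CC_a_ne h hij h1 h2]

theorem K2_b_ne {l : Fin m} (h1 : l ≠ i) (h2 : l ≠ j) : K2 h hij (b l) = b l := by
  rw [K2]
  simp only [MulAut.mul_apply, K1_b_ne h hij h1 h2, TAi_b_ne h h1, TAi_b_ne h h2, TB_b, CC_b_ne h hij h1 h2]

/-- A factor of the half twist of the chain. -/
noncomputable def K3 : MulAut G :=
  (TA h j)⁻¹ * CC h i j hij * K2 h hij

theorem K3_ai : K3 h hij (a i) =
    a i * b i * (a i)⁻¹ * (b i)⁻¹ * a j * (a i)⁻¹ := by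
  have n1 := ne_of_succ hij
  have e : cv a b i j = b i * (a i)⁻¹ * (b i)⁻¹ * a j := rfl
  rw [K3]
  simp only [MulAut.mul_apply, map_mul, map_inv, K2_ai h hij, TAi_a, TAi_b, TAi_b_ne h n1, TAi_b_ne h n1.symm, TB_a, TB_b, TB_a_ne h n1, TB_a_ne h n1.symm, CC_ai, CC_bi, CC_aj, CC_bj, CC_cv, e]
  try group

theorem K3_bi : K3 h hij (b i) =
    a i * (b i)⁻¹ * (a i)⁻¹ := by
  have n1 := ne_of_succ hij
  have e : cv a b i j = b i * (a i)⁻¹ * (b i)⁻¹ * a j := rfl
  rw [K3]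
  simp only [MulAut.mul_apply, map_mul, map_inv, K2_bi h hij, TAi_a, TAi_b, TAi_b_ne h n1, TAi_b_ne h n1.symm, TB_a, TB_b, TB_a_ne h n1, TB_a_ne h n1.symm, CC_ai, CC_bi, CC_aj, CC_bj, CC_cv, e]
  try group

theorem K3_aj : K3 h hij (a j) =
    (b i)⁻¹ * a j * b i := by
  have n1 := ne_of_succ hij
  have e : cv a b i j = b i * (a i)⁻¹ * (b i)⁻¹ * a j := rfl
  rw [K3]
  simp only [MulAut.mul_apply, map_mul, map_inv, K2_aj h hij, TAi_a, TAi_b, TAi_b_ne h n1, TAi_b_ne h n1.symm, TB_a, TB_b, TB_a_ne h n1, TB_a_ne h n1.symm, CC_ai, CC_bi, CC_aj, CC_bj, CC_cv, e]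
  try group

theorem K3_bj : K3 h hij (b j) =
    b j * (a j)⁻¹ * (a j)⁻¹ * b i := by
  have n1 := ne_of_succ hij
  have e : cv a b i j = b i * (a i)⁻¹ * (b i)⁻¹ * a j := rfl
  rw [K3]
  simp only [MulAut.mul_apply, map_mul, map_inv, K2_bj h hij, TAi_a, TAi_b, TAi_b_ne h n1, TAi_b_ne h n1.symm, TB_a, TB_b, TB_a_ne h n1, TB_a_ne h n1.symm, CC_ai, CC_bi, CC_aj, CC_bj, CC_cv, e]
  try group

theorem K3_a_ne {l : Fin m} (h1 : l ≠ i) (h2 : l ≠ j) : K3 h hij (a l) = a l := by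
  rw [K3]
  simp only [MulAut.mul_apply, K2_a_ne h hij h1 h2, TAi_a, TB_a_ne h h1, TB_a_ne h h2, CC_a_ne h hij h1 h2]

theorem K3_b_ne {l : Fin m} (h1 : l ≠ i) (h2 : l ≠ j) : K3 h hij (b l) = b l := by
  rw [K3]
  simp only [MulAut.mul_apply, K2_b_ne h hij h1 h2, TAi_b_ne h h1, TAi_b_ne h h2, TB_b, CC_b_ne h hij h1 h2]

/-- A factor of the half twist of the chain. -/
noncomputable def K4 : MulAut G :=
  (TA h j)⁻¹ * TB h j * K3 h hij

theorem K4_ai : K4 h hij (a i) =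
    a i * b i * (a i)⁻¹ * (b i)⁻¹ * a j * b j * (a j)⁻¹ * (a i)⁻¹ := by
  have n1 := ne_of_succ hij
  have e : cv a b i j = b i * (a i)⁻¹ * (b i)⁻¹ * a j := rfl
  rw [K4]
  simp only [MulAut.mul_apply, map_mul, map_inv, K3_ai h hij, TAi_a, TAi_b, TAi_b_ne h n1, TAi_b_ne h n1.symm, TB_a, TB_b, TB_a_ne h n1, TB_a_ne h n1.symm, CC_ai, CC_bi, CC_aj, CC_bj, CC_cv, e]
  try group

theorem K4_bi : K4 h hij (b i) =
    a i * (b i)⁻¹ * (a i)⁻¹ := by
  have n1 := ne_of_succ hij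
  have e : cv a b i j = b i * (a i)⁻¹ * (b i)⁻¹ * a j := rfl
  rw [K4]
  simp only [MulAut.mul_apply, map_mul, map_inv, K3_bi h hij, TAi_a, TAi_b, TAi_b_ne h n1, TAi_b_ne h n1.symm, TB_a, TB_b, TB_a_ne h n1, TB_a_ne h n1.symm, CC_ai, CC_bi, CC_aj, CC_bj, CC_cv, e]
  try group

theorem K4_aj : K4 h hij (a j) =
    (b i)⁻¹ * a j * b j * (a j)⁻¹ * b i := by
  have n1 := ne_of_succ hij
  have e : cv a b i j = b i * (a i)⁻¹ * (b i)⁻¹ * a j := rfl
  rw [K4]
  simp only [MulAut.mul_apply, map_mul, map_inv, K3_aj h hij, TAi_a, TAi_b, TAi_b_ne h n1, TAi_b_ne h n1.symm, TB_a, TB_b, TB_a_ne h n1, TB_a_ne h n1.symm, CC_ai, CC_bi, CC_aj, CC_bj, CC_cv, e]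
  try group

theorem K4_bj : K4 h hij (b j) =
    (b j)⁻¹ * (a j)⁻¹ * b i := by
  have n1 := ne_of_succ hij
  have e : cv a b i j = b i * (a i)⁻¹ * (b i)⁻¹ * a j := rfl
  rw [K4]
  simp only [MulAut.mul_apply, map_mul, map_inv, K3_bj h hij, TAi_a, TAi_b, TAi_b_ne h n1, TAi_b_ne h n1.symm, TB_a, TB_b, TB_a_ne h n1, TB_a_ne h n1.symm, CC_ai, CC_bi, CC_aj, CC_bj, CC_cv, e]
  try group

theorem K4_a_ne {l : Fin m} (h1 : l ≠ i) (h2 : l ≠ j) : K4 h hij (a l) = a l := by
  rw [K4]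
  simp only [MulAut.mul_apply, K3_a_ne h hij h1 h2, TAi_a, TB_a_ne h h1, TB_a_ne h h2, CC_a_ne h hij h1 h2]

theorem K4_b_ne {l : Fin m} (h1 : l ≠ i) (h2 : l ≠ j) : K4 h hij (b l) = b l := by
  rw [K4]
  simp only [MulAut.mul_apply, K3_b_ne h hij h1 h2, TAi_b_ne h h1, TAi_b_ne h h2, TB_b, CC_b_ne h hij h1 h2]

/-- A factor of the half twist of the chain. -/
noncomputable def K5 : MulAut G :=
  TB h j * CC h i j hij * K4 h hij

theorem K5_ai : K5 h hij (a i) =
    a i * b i * (a i)⁻¹ * (b i)⁻¹ * a j * b j * (a j)⁻¹ * (b j)⁻¹ * (a j)⁻¹ * b i * a i * (b i)⁻¹ * (a i)⁻¹ := by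
  have n1 := ne_of_succ hij
  have e : cv a b i j = b i * (a i)⁻¹ * (b i)⁻¹ * a j := rfl
  rw [K5]
  simp only [MulAut.mul_apply, map_mul, map_inv, K4_ai h hij, TAi_a, TAi_b, TAi_b_ne h n1, TAi_b_ne h n1.symm, TB_a, TB_b, TB_a_ne h n1, TB_a_ne h n1.symm, CC_ai, CC_bi, CC_aj, CC_bj, CC_cv, e]
  try group

theorem K5_bi : K5 h hij (b i) =
    a i * (b i)⁻¹ * (b j)⁻¹ * (a j)⁻¹ * b i * a i * (b i)⁻¹ * (a i)⁻¹ := by
  have n1 := ne_of_succ hij
  have e : cv a b i j = b i * (a i)⁻¹ * (b i)⁻¹ * a j := rfl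
  rw [K5]
  simp only [MulAut.mul_apply, map_mul, map_inv, K4_bi h hij, TAi_a, TAi_b, TAi_b_ne h n1, TAi_b_ne h n1.symm, TB_a, TB_b, TB_a_ne h n1, TB_a_ne h n1.symm, CC_ai, CC_bi, CC_aj, CC_bj, CC_cv, e]
  try group

theorem K5_aj : K5 h hij (a j) =
    a i * (b i)⁻¹ * (a j)⁻¹ * b i := by
  have n1 := ne_of_succ hij
  have e : cv a b i j = b i * (a i)⁻¹ * (b i)⁻¹ * a j := rfl
  rw [K5]
  simp only [MulAut.mul_apply, map_mul, map_inv, K4_aj h hij, TAi_a, TAi_b, TAi_b_ne h n1, TAi_b_ne h n1.symm, TB_a, TB_b, TB_a_ne h n1, TB_a_ne h n1.symm, CC_ai, CC_bi, CC_aj, CC_bj, CC_cv, e]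
  try group

theorem K5_bj : K5 h hij (b j) =
    b i * (a i)⁻¹ * (b i)⁻¹ * a j * b i * (a i)⁻¹ := by
  have n1 := ne_of_succ hij
  have e : cv a b i j = b i * (a i)⁻¹ * (b i)⁻¹ * a j := rfl
  rw [K5]
  simp only [MulAut.mul_apply, map_mul, map_inv, K4_bj h hij, TAi_a, TAi_b, TAi_b_ne h n1, TAi_b_ne h n1.symm, TB_a, TB_b, TB_a_ne h n1, TB_a_ne h n1.symm, CC_ai, CC_bi, CC_aj, CC_bj, CC_cv, e]
  try group

theorem K5_a_ne {l : Fin m} (h1 : l ≠ i) (h2 : l ≠ j) : K5 h hij (a l) = a l := by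
  rw [K5]
  simp only [MulAut.mul_apply, K4_a_ne h hij h1 h2, TAi_a, TB_a_ne h h1, TB_a_ne h h2, CC_a_ne h hij h1 h2]

theorem K5_b_ne {l : Fin m} (h1 : l ≠ i) (h2 : l ≠ j) : K5 h hij (b l) = b l := by
  rw [K5]
  simp only [MulAut.mul_apply, K4_b_ne h hij h1 h2, TAi_b_ne h h1, TAi_b_ne h h2, TB_b, CC_b_ne h hij h1 h2]

/-- A factor of the half twist of the chain. -/
noncomputable def K6 : MulAut G :=
  CC h i j hij * TB h i * K5 h hij

theorem K6_ai : K6 h hij (a i) =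
    a i * b i * (a i)⁻¹ * (b i)⁻¹ * a j * b j * (a j)⁻¹ * (b j)⁻¹ * (a j)⁻¹ * b i * a i * (b i)⁻¹ * (a i)⁻¹ := by
  have n1 := ne_of_succ hij
  have e : cv a b i j = b i * (a i)⁻¹ * (b i)⁻¹ * a j := rfl
  rw [K6]
  simp only [MulAut.mul_apply, map_mul, map_inv, K5_ai h hij, TAi_a, TAi_b, TAi_b_ne h n1, TAi_b_ne h n1.symm, TB_a, TB_b, TB_a_ne h n1, TB_a_ne h n1.symm, CC_ai, CC_bi, CC_aj, CC_bj, CC_cv, e]
  try group

theorem K6_bi : K6 h hij (b i) =
    a i * b i * (a i)⁻¹ * (b i)⁻¹ * a j * (b j)⁻¹ * (a j)⁻¹ * b i * a i * (b i)⁻¹ * (a i)⁻¹ := by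
  have n1 := ne_of_succ hij
  have e : cv a b i j = b i * (a i)⁻¹ * (b i)⁻¹ * a j := rfl
  rw [K6]
  simp only [MulAut.mul_apply, map_mul, map_inv, K5_bi h hij, TAi_a, TAi_b, TAi_b_ne h n1, TAi_b_ne h n1.symm, TB_a, TB_b, TB_a_ne h n1, TB_a_ne h n1.symm, CC_ai, CC_bi, CC_aj, CC_bj, CC_cv, e]
  try group

theorem K6_aj : K6 h hij (a j) =
    a i * b i * (a i)⁻¹ := by
  have n1 := ne_of_succ hij
  have e : cv a b i j = b i * (a i)⁻¹ * (b i)⁻¹ * a j := rfl
  rw [K6]
  simp only [MulAut.mul_apply, map_mul, map_inv, K5_aj h hij, TAi_a, TAi_b, TAi_b_ne h n1, TAi_b_ne h n1.symm, TB_a, TB_b, TB_a_ne h n1, TB_a_ne h n1.symm, CC_ai, CC_bi, CC_aj, CC_bj, CC_cv, e]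
  try group

theorem K6_bj : K6 h hij (b j) =
    (b i)⁻¹ * (a i)⁻¹ := by
  have n1 := ne_of_succ hij
  have e : cv a b i j = b i * (a i)⁻¹ * (b i)⁻¹ * a j := rfl
  rw [K6]
  simp only [MulAut.mul_apply, map_mul, map_inv, K5_bj h hij, TAi_a, TAi_b, TAi_b_ne h n1, TAi_b_ne h n1.symm, TB_a, TB_b, TB_a_ne h n1, TB_a_ne h n1.symm, CC_ai, CC_bi, CC_aj, CC_bj, CC_cv, e]
  try group

theorem K6_a_ne {l : Fin m} (h1 : l ≠ i) (h2 : l ≠ j) : K6 h hij (a l) = a l := by
  rw [K6]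
  simp only [MulAut.mul_apply, K5_a_ne h hij h1 h2, TAi_a, TB_a_ne h h1, TB_a_ne h h2, CC_a_ne h hij h1 h2]

theorem K6_b_ne {l : Fin m} (h1 : l ≠ i) (h2 : l ≠ j) : K6 h hij (b l) = b l := by
  rw [K6]
  simp only [MulAut.mul_apply, K5_b_ne h hij h1 h2, TAi_b_ne h h1, TAi_b_ne h h2, TB_b, CC_b_ne h hij h1 h2]

/-- A factor of the half twist of the chain. -/
noncomputable def K7 : MulAut G :=
  TB h i * (TA h i)⁻¹ * K6 h hij

theorem K7_ai : K7 h hij (a i) =
    a i * b i * (a i)⁻¹ * (b i)⁻¹ * a j * b j * (a j)⁻¹ * (b j)⁻¹ * (a j)⁻¹ * b i * a i * (b i)⁻¹ * (a i)⁻¹ := by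
  have n1 := ne_of_succ hij
  have e : cv a b i j = b i * (a i)⁻¹ * (b i)⁻¹ * a j := rfl
  rw [K7]
  simp only [MulAut.mul_apply, map_mul, map_inv, K6_ai h hij, TAi_a, TAi_b, TAi_b_ne h n1, TAi_b_ne h n1.symm, TB_a, TB_b, TB_a_ne h n1, TB_a_ne h n1.symm, CC_ai, CC_bi, CC_aj, CC_bj, CC_cv, e]
  try group

theorem K7_bi : K7 h hij (b i) =
    a i * b i * (a i)⁻¹ * (b i)⁻¹ * a j * (b j)⁻¹ * (a j)⁻¹ * b i * a i * (b i)⁻¹ * (a i)⁻¹ := by
  have n1 := ne_of_succ hij
  have e : cv a b i j = b i * (a i)⁻¹ * (b i)⁻¹ * a j := rfl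
  rw [K7]
  simp only [MulAut.mul_apply, map_mul, map_inv, K6_bi h hij, TAi_a, TAi_b, TAi_b_ne h n1, TAi_b_ne h n1.symm, TB_a, TB_b, TB_a_ne h n1, TB_a_ne h n1.symm, CC_ai, CC_bi, CC_aj, CC_bj, CC_cv, e]
  try group

theorem K7_aj : K7 h hij (a j) =
    a i * b i * (a i)⁻¹ * (b i)⁻¹ * (a i)⁻¹ := by
  have n1 := ne_of_succ hij
  have e : cv a b i j = b i * (a i)⁻¹ * (b i)⁻¹ * a j := rfl
  rw [K7]
  simp only [MulAut.mul_apply, map_mul, map_inv, K6_aj h hij, TAi_a, TAi_b, TAi_b_ne h n1, TAi_b_ne h n1.symm, TB_a, TB_b, TB_a_ne h n1, TB_a_ne h n1.symm, CC_ai, CC_bi, CC_aj, CC_bj, CC_cv, e]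
  try group

theorem K7_bj : K7 h hij (b j) =
    a i * (b i)⁻¹ * (a i)⁻¹ := by
  have n1 := ne_of_succ hij
  have e : cv a b i j = b i * (a i)⁻¹ * (b i)⁻¹ * a j := rfl
  rw [K7]
  simp only [MulAut.mul_apply, map_mul, map_inv, K6_bj h hij, TAi_a, TAi_b, TAi_b_ne h n1, TAi_b_ne h n1.symm, TB_a, TB_b, TB_a_ne h n1, TB_a_ne h n1.symm, CC_ai, CC_bi, CC_aj, CC_bj, CC_cv, e]
  try group

theorem K7_a_ne {l : Fin m} (h1 : l ≠ i) (h2 : l ≠ j) : K7 h hij (a l) = a l := by
  rw [K7]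
  simp only [MulAut.mul_apply, K6_a_ne h hij h1 h2, TAi_a, TB_a_ne h h1, TB_a_ne h h2, CC_a_ne h hij h1 h2]

theorem K7_b_ne {l : Fin m} (h1 : l ≠ i) (h2 : l ≠ j) : K7 h hij (b l) = b l := by
  rw [K7]
  simp only [MulAut.mul_apply, K6_b_ne h hij h1 h2, TAi_b_ne h h1, TAi_b_ne h h2, TB_b, CC_b_ne h hij h1 h2]


/-- The half twist of the chain. -/
theorem gar : TB h i * (TA h i)⁻¹ * (CC h i j hij * TB h i) * (TB h j * CC h i j hij) *
      ((TA h j)⁻¹ * TB h j) * ((TA h j)⁻¹ * (CC h i j hij * TB h i * (TA h i)⁻¹ *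
        CC h i j hij * TB h i * CC h i j hij)) =
    SW h i j hij * (((TA h i)⁻¹ * TB h i) ^ 3 * ((TA h j)⁻¹ * TB h j) ^ 3) := by
  have n1 := ne_of_succ hij
  rw [← IO_eq, ← IO_eq]
  have e1 : TB h i * (TA h i)⁻¹ * (CC h i j hij * TB h i) * (TB h j * CC h i j hij) *
      ((TA h j)⁻¹ * TB h j) * ((TA h j)⁻¹ * (CC h i j hij * TB h i * (TA h i)⁻¹ *
        CC h i j hij * TB h i * CC h i j hij)) = K7 h hij := by
    rw [K7, K6, K5, K4, K3, K2, K1]
    simp only [mul_assoc]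
  rw [e1]
  apply aut_ext h
  · intro l
    rw [MulAut.mul_apply, MulAut.mul_apply]
    by_cases hi : l = i
    · subst hi
      simp only [K7_ai, IO_a_ne h n1.symm, IO_a, SW_ai, SW_bi, map_mul, map_inv]
      group
    · by_cases hj : l = j
      · subst hj
        simp only [K7_aj, IO_a_ne h n1, IO_b_ne h n1, IO_a, SW_aj, SW_bj, map_mul, map_inv]
      · simp only [K7_a_ne h hij hi hj, IO_a_ne h hi, IO_a_ne h hj, SW_a_ne h hij hi hj]
  · intro l
    rw [MulAut.mul_apply, MulAut.mul_apply]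
    by_cases hi : l = i
    · subst hi
      simp only [K7_bi, IO_b_ne h n1.symm, IO_b, SW_ai, SW_bi, map_mul, map_inv]
      group
    · by_cases hj : l = j
      · subst hj
        simp only [K7_bj, IO_a_ne h n1, IO_b_ne h n1, IO_b, SW_aj, SW_bj, map_mul, map_inv]
      · simp only [K7_b_ne h hij hi hj, IO_b_ne h hi, IO_b_ne h hj, SW_b_ne h hij hi hj]

theorem SW_TAi : SW h i j hij * TA h i = TA h j * SW h i j hij := by
  have n1 := ne_of_succ hij
  apply aut_ext h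
  · intro l
    rw [MulAut.mul_apply, MulAut.mul_apply, TA_a]
    by_cases hi : l = i
    · subst hi
      simp only [SW_ai, map_mul, map_inv, TA_a, TA_b_ne h n1.symm]
    · by_cases hj : l = j
      · subst hj
        simp only [SW_aj, TA_a]
      · simp only [SW_a_ne h hij hi hj, TA_a]
  · intro l
    rw [MulAut.mul_apply, MulAut.mul_apply]
    by_cases hi : l = i
    · subst hi
      simp only [TA_b, SW_ai, SW_bi, map_mul, map_inv, TA_a, TA_b_ne h n1.symm]
      group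
    · by_cases hj : l = j
      · subst hj
        simp only [TA_b_ne h n1, SW_bj, TA_b_ne h n1.symm]
      · simp only [TA_b_ne h hi, TA_b_ne h hj, SW_b_ne h hij hi hj]

theorem SW_TAj : SW h i j hij * TA h j = TA h i * SW h i j hij := by
  have n1 := ne_of_succ hij
  apply aut_ext h
  · intro l
    rw [MulAut.mul_apply, MulAut.mul_apply, TA_a]
    by_cases hi : l = i
    · subst hi
      simp only [SW_ai, map_mul, map_inv, TA_a, TA_b]
      group
    · by_cases hj : l = j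
      · subst hj
        simp only [SW_aj, TA_a]
      · simp only [SW_a_ne h hij hi hj, TA_a]
  · intro l
    rw [MulAut.mul_apply, MulAut.mul_apply]
    by_cases hi : l = i
    · subst hi
      simp only [TA_b_ne h n1.symm, SW_ai, SW_bi, map_mul, map_inv, TA_a, TA_b, TA_b_ne h n1]
      group
    · by_cases hj : l = j
      · subst hj
        simp only [TA_b, SW_bj, SW_aj, map_mul]
      · simp only [TA_b_ne h hi, TA_b_ne h hj, SW_b_ne h hij hi hj]

theorem SW_TBi : SW h i j hij * TB h i = TB h j * SW h i j hij := by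
  have n1 := ne_of_succ hij
  apply aut_ext h
  · intro l
    rw [MulAut.mul_apply, MulAut.mul_apply]
    by_cases hi : l = i
    · subst hi
      simp only [TB_a, SW_ai, SW_bi, map_mul, map_inv, TB_b, TB_a_ne h n1.symm]
      group
    · by_cases hj : l = j
      · subst hj
        simp only [TB_a_ne h n1, SW_aj, TB_a_ne h n1.symm]
      · simp only [TB_a_ne h hi, TB_a_ne h hj, SW_a_ne h hij hi hj]
  · intro l
    rw [MulAut.mul_apply, MulAut.mul_apply, TB_b]
    by_cases hi : l = i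
    · subst hi
      simp only [SW_bi, map_mul, map_inv, TB_b, TB_a_ne h n1.symm]
    · by_cases hj : l = j
      · subst hj
        simp only [SW_bj, TB_b]
      · simp only [SW_b_ne h hij hi hj, TB_b]

theorem SW_TBj : SW h i j hij * TB h j = TB h i * SW h i j hij := by
  have n1 := ne_of_succ hij
  apply aut_ext h
  · intro l
    rw [MulAut.mul_apply, MulAut.mul_apply]
    by_cases hi : l = i
    · subst hi
      simp only [TB_a_ne h n1.symm, SW_ai, SW_bi, map_mul, map_inv, TB_b, TB_a, TB_a_ne h n1]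
      group
    · by_cases hj : l = j
      · subst hj
        simp only [TB_a, SW_aj, SW_bj, map_mul]
      · simp only [TB_a_ne h hi, TB_a_ne h hj, SW_a_ne h hij hi hj]
  · intro l
    rw [MulAut.mul_apply, MulAut.mul_apply, TB_b]
    by_cases hi : l = i
    · subst hi
      simp only [SW_bi, map_mul, map_inv, TB_b, TB_a, TB_a_ne h n1]
      group
    · by_cases hj : l = j
      · subst hj
        simp only [SW_bj, TB_b]
      · simp only [SW_b_ne h hij hi hj, TB_b]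

theorem SW_TA_ne {k : Fin m} (h1 : k ≠ i) (h2 : k ≠ j) : Commute (SW h i j hij) (TA h k) := by
  change SW h i j hij * TA h k = TA h k * SW h i j hij
  apply aut_ext h
  · intro l
    rw [MulAut.mul_apply, MulAut.mul_apply, TA_a]
    by_cases hi : l = i
    · subst hi
      simp only [SW_ai, map_mul, map_inv, TA_a, TA_b_ne h h1.symm]
    · by_cases hj : l = j
      · subst hj
        simp only [SW_aj, TA_a]
      · simp only [SW_a_ne h hij hi hj, TA_a]
  · intro l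
    rw [MulAut.mul_apply, MulAut.mul_apply]
    by_cases hi : l = i
    · subst hi
      simp only [TA_b_ne h h1.symm, SW_bi, map_mul, map_inv, TA_a, TA_b_ne h h2.symm]
    · by_cases hj : l = j
      · subst hj
        simp only [TA_b_ne h h2.symm, SW_bj, TA_b_ne h h1.symm]
      · by_cases hk : l = k
        · subst hk
          simp only [TA_b, map_mul, SW_b_ne h hij hi hj, SW_a_ne h hij hi hj]
        · simp only [TA_b_ne h hk, SW_b_ne h hij hi hj]

theorem SW_TB_ne {k : Fin m} (h1 : k ≠ i) (h2 : k ≠ j) : Commute (SW h i j hij) (TB h k) := by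
  change SW h i j hij * TB h k = TB h k * SW h i j hij
  apply aut_ext h
  · intro l
    rw [MulAut.mul_apply, MulAut.mul_apply]
    by_cases hi : l = i
    · subst hi
      simp only [TB_a_ne h h1.symm, SW_ai, map_mul, map_inv, TB_b, TB_a_ne h h2.symm]
    · by_cases hj : l = j
      · subst hj
        simp only [TB_a_ne h h2.symm, SW_aj, TB_a_ne h h1.symm]
      · by_cases hk : l = k
        · subst hk
          simp only [TB_a, map_mul, SW_b_ne h hij hi hj, SW_a_ne h hij hi hj]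
        · simp only [TB_a_ne h hk, SW_a_ne h hij hi hj]
  · intro l
    rw [MulAut.mul_apply, MulAut.mul_apply, TB_b]
    by_cases hi : l = i
    · subst hi
      simp only [SW_bi, map_mul, map_inv, TB_b, TB_a_ne h h1.symm]
    · by_cases hj : l = j
      · subst hj
        simp only [SW_bj, TB_b]
      · simp only [SW_b_ne h hij hi hj, TB_b]

/-- The exchange commutes with the twists `CC` of other pairs. -/
theorem SW_CC_ne {p q : Fin m} (hpq : (q : ℕ) = p + 1) (h1 : p ≠ i) (h2 : p ≠ j) (h3 : q ≠ i)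
    (h4 : q ≠ j) : Commute (SW h i j hij) (CC h p q hpq) := by
  change SW h i j hij * CC h p q hpq = CC h p q hpq * SW h i j hij
  have e : cv a b p q = b p * (a p)⁻¹ * (b p)⁻¹ * a q := rfl
  have ec : SW h i j hij (cv a b p q) = cv a b p q := by
    simp only [e, map_mul, map_inv, SW_b_ne h hij h1 h2, SW_a_ne h hij h1 h2,
      SW_a_ne h hij h3 h4]
  apply aut_ext h
  · intro l
    rw [MulAut.mul_apply, MulAut.mul_apply]
    by_cases hi : l = i
    · subst hi
      simp only [CC_a_ne h hpq h1.symm h3.symm, SW_ai, map_mul, map_inv,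
        CC_b_ne h hpq h1.symm h3.symm, CC_a_ne h hpq h2.symm h4.symm]
    · by_cases hj : l = j
      · subst hj
        simp only [CC_a_ne h hpq h2.symm h4.symm, SW_aj, CC_a_ne h hpq h1.symm h3.symm]
      · by_cases hp : l = p
        · subst hp
          simp only [CC_ai, SW_a_ne h hij hi hj]
        · by_cases hq : l = q
          · subst hq
            simp only [CC_aj, map_mul, map_inv, ec, SW_a_ne h hij hi hj]
          · simp only [CC_a_ne h hpq hp hq, SW_a_ne h hij hi hj]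
  · intro l
    rw [MulAut.mul_apply, MulAut.mul_apply]
    by_cases hi : l = i
    · subst hi
      simp only [CC_b_ne h hpq h1.symm h3.symm, SW_bi, map_mul, map_inv,
        CC_a_ne h hpq h1.symm h3.symm, CC_b_ne h hpq h2.symm h4.symm]
    · by_cases hj : l = j
      · subst hj
        simp only [CC_b_ne h hpq h2.symm h4.symm, SW_bj, CC_b_ne h hpq h1.symm h3.symm]
      · by_cases hp : l = p
        · subst hp
          simp only [CC_bi, map_mul, ec, SW_b_ne h hij hi hj]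
        · by_cases hq : l = q
          · subst hq
            simp only [CC_bj, map_mul, map_inv, ec, SW_b_ne h hij hi hj]
          · simp only [CC_b_ne h hpq hp hq, SW_b_ne h hij hi hj]

end

section main

variable {m : ℕ} {G : Type*} [Group G] {a b : Fin m → G} (h : IsSurf a b)

theorem TrA_ge {k : ℕ} (hk : m ≤ k) : TrA h k = 1 := dif_neg (by omega)
theorem TrB_ge {k : ℕ} (hk : m ≤ k) : TrB h k = 1 := dif_neg (by omega)
theorem TrC_ge {k : ℕ} (hk : m ≤ k + 1) : TrC h k = 1 := dif_neg (by omega)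

/-- The relations. -/
theorem lk_of {S : ℕ → MulAut G}
    (hS : ∀ k (hk : k + 1 < m), S k = SW h ⟨k, by omega⟩ ⟨k + 1, hk⟩ rfl)
    (hS' : ∀ k, m ≤ k + 1 → S k = 1) : Lk m (TrA h) (TrB h) (TrC h) S := by
  have T := treeGrp h
  refine ⟨?_, ?_, ?_, ?_, ?_, ?_, ?_, ?_, ?_, ?_, ?_, ?_, ?_, ?_, ?_, ?_, ?_, ?_, ?_, ?_⟩
  · intro i j
    by_cases hi : i < m
    · by_cases hj : j < m
      · exact T.cAA i j hi hj
      · rw [TrA_ge h (k := j) (by omega)]
        exact Commute.one_right _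
    · rw [TrA_ge h (k := i) (by omega)]
      exact Commute.one_left _
  · intro i j
    by_cases hi : i < m
    · by_cases hj : j + 1 < m
      · exact T.cAC i j hi hj
      · rw [TrC_ge h (k := j) (by omega)]
        exact Commute.one_right _
    · rw [TrA_ge h (k := i) (by omega)]
      exact Commute.one_left _
  · intro i j
    by_cases hi : i + 1 < m
    · by_cases hj : j + 1 < m
      · exact T.cCC i j hi hj
      · rw [TrC_ge h (k := j) (by omega)]
        exact Commute.one_right _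
    · rw [TrC_ge h (k := i) (by omega)]
      exact Commute.one_left _
  · intro i j hij
    by_cases hi : i < m
    · by_cases hj : j < m
      · exact T.cAB i j hi hj hij
      · rw [TrB_ge h (k := j) (by omega)]
        exact Commute.one_right _
    · rw [TrA_ge h (k := i) (by omega)]
      exact Commute.one_left _
  · intro i j
    by_cases hi : i < m
    · by_cases hj : j < m
      · exact T.cBB i j hi hj
      · rw [TrB_ge h (k := j) (by omega)]
        exact Commute.one_right _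
    · rw [TrB_ge h (k := i) (by omega)]
      exact Commute.one_left _
  · intro i j h1 h2
    by_cases hi : i < m
    · by_cases hj : j + 1 < m
      · exact T.cBC i j hi hj h1 h2
      · rw [TrC_ge h (k := j) (by omega)]
        exact Commute.one_right _
    · rw [TrB_ge h (k := i) (by omega)]
      exact Commute.one_left _
  · intro i
    by_cases hi : i < m
    · exact T.AB i hi
    · rw [TrA_ge h (k := i) (by omega), TrB_ge h (k := i) (by omega)]
  · intro i hi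
    exact T.BC i hi
  · intro i hi
    exact (T.CB i hi).symm
  · intro i hi
    rw [hS i hi, TrA_lt h (by omega : i < m), TrA_lt h hi]
    exact ((show SemiconjBy (SW h ⟨i, by omega⟩ ⟨i + 1, hi⟩ rfl) _ _ from
      SW_TAi h rfl).inv_right).eq
  · intro i hi
    rw [hS i hi, TrA_lt h (by omega : i < m), TrA_lt h hi]
    exact ((show SemiconjBy (SW h ⟨i, by omega⟩ ⟨i + 1, hi⟩ rfl) _ _ from
      SW_TAj h rfl).inv_right).eq
  · intro i hi
    rw [hS i hi, TrB_lt h (by omega : i < m), TrB_lt h hi]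
    exact SW_TBi h rfl
  · intro i hi
    rw [hS i hi, TrB_lt h (by omega : i < m), TrB_lt h hi]
    exact SW_TBj h rfl
  · intro i j h1 h2
    by_cases hi : i + 1 < m
    · by_cases hj : j < m
      · rw [hS i hi, TrA_lt h hj]
        exact (SW_TA_ne h rfl (fun e => h1 (by simpa using e))
          (fun e => h2 (by simpa using e))).inv_right
      · rw [TrA_ge h (k := j) (by omega)]
        exact Commute.one_right _
    · rw [hS' i (by omega)]
      exact Commute.one_left _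
  · intro i j h1 h2
    by_cases hi : i + 1 < m
    · by_cases hj : j < m
      · rw [hS i hi, TrB_lt h hj]
        exact SW_TB_ne h rfl (fun e => h1 (by simpa using e)) (fun e => h2 (by simpa using e))
      · rw [TrB_ge h (k := j) (by omega)]
        exact Commute.one_right _
    · rw [hS' i (by omega)]
      exact Commute.one_left _
  · intro i j h1 h2 h3
    by_cases hi : i + 1 < m
    · by_cases hj : j + 1 < m
      · rw [hS i hi, TrC_lt h hj]
        exact SW_CC_ne h rfl rfl (fun e => h2 (by simpa using e)) (fun e => h3 (by simpa using e))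
          (fun e => h1 (by simpa using e)) (fun e => h2 (by simpa using e))
      · rw [TrC_ge h (k := j) (by omega)]
        exact Commute.one_right _
    · rw [hS' i (by omega)]
      exact Commute.one_left _
  · intro i hi
    rw [hS i (by omega), hS (i + 1) (by omega), TrC_lt h (by omega : i + 1 < m),
      TrC_lt h (by omega : i + 1 + 1 < m)]
    exact SSC' h rfl rfl
  · intro i hi
    rw [hS i (by omega), hS (i + 1) (by omega), TrC_lt h (by omega : i + 1 < m),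
      TrC_lt h (by omega : i + 1 + 1 < m)]
    exact SSC h rfl rfl
  · intro i hi
    rw [hS i hi, TrA_lt h (by omega : i < m), TrA_lt h hi, TrB_lt h (by omega : i < m),
      TrB_lt h hi, TrC_lt h hi]
    exact gar h rfl
  · intro i hi
    exact TrC_ge h hi

end main

end Pool.MP_59b15d_al.H60E.LkI
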