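import Mathlib
import Pool.Agent.H.MP_59b15d_al.h60e.Inst
import Pool.Agent.H.MP_59b15d_al.h40d.PuI
import Pool.Agent.H.MP_59b15d_al.h46u.Inst

set_option autoImplicit false

/-!
# Exact families vanish, for the mapping class group
-/

namespace Pool.MP_59b15d_al.H60E

universe w

open Module Pool.MP_59b15d_al.H95E Pool.MP_59b15d_al.H93E Pool.MP_59b15d_al.H11D
open Pool.MP_59b15d_al.H24T Pool.MP_59b15d_al.H76R Pool.MP_59b15d_al.H73E
open Pool.MP_59b15d_al.H60G Pool.MP_59b15d_al.H40L Pool.MP_59b15d_al.H40D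
open Pool.MP_59b15d_al.H46U
open Pool.Agent.H.MP_59b15d_al.Lin

variable {n : ℕ} {G : Type w} [Group G] {a b : Fin (n + 1) → G} (h : IsSurf a b)

/-- The twists generate. -/
theorem hgen_mcg (K : Subgroup (MCG a b)) (hA : ∀ i, i < n + 1 → uA h i ∈ K)
    (hB : ∀ i, i < n + 1 → uB h i ∈ K) (hC : ∀ i, i + 1 < n + 1 → uC h i ∈ K) : K = ⊤ := by
  have hgen : Subgroup.closure (Set.range (tt (g := n + 1) (uA h) (uB h) (uC h))) = ⊤ := by
    apply closure_eq_top_of_val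
    refine Eq.trans ?_ ((gen_tt h).trans (MCG_eq_MR h (Nat.succ_pos n)).symm)
    congr 2
    ext s : 1
    exact tt_u_val h s
  rw [eq_top_iff, ← hgen, Subgroup.closure_le]
  rintro _ ⟨i | i | i, rfl⟩
  · exact hA i i.2
  · exact hB i i.2
  · exact hC i (by omega)

/-- The pushes. -/
theorem pu_mcg : Pu n (uA h) (uB h) (uC h) (uS h) (gXA h) (gXB h) :=
  pu_sub h (fun _ => rfl) (fun _ => rfl) (fun _ => rfl) (fun _ hk => TrS_lt h hk)
    (fun _ => rfl) fun _ => rfl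

/-- Exact families vanish. -/
theorem ev_mcg (L : Lk (n + 1) (TrA h) (TrB h) (TrC h) (TrS h))
    {F V : Type*} [Field F] [AddCommGroup V] [Module F V] (ρ : MCG a b →* Module.End F V)
    (hirr : ∀ U : Submodule F V, (∀ g, ∀ u ∈ U, ρ g u ∈ U) → U = ⊥ ∨ U = ⊤) :
    ∀ (m : ℕ) (T : List ℕ), T.Nodup → (∀ i ∈ T, i < n + 1) → T.length = m + 1 →
      np ρ (T.map (uA h)) ≠ 0 →
      ∀ W : Submodule F V, Ex ρ (uA h) (uB h) (uC h) (uS h) (n + 1) m W → W = ⊥ :=
  EV (ulk h L) (uhb h L) (pu_mcg h) (hgen_mcg h) hirr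

end Pool.MP_59b15d_al.H60E
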